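import Pool.Agent.R6.I1A

/-!
Note 2486 of MP_e6151a_ag, combinatorial part, continued: `DP.false`.
-/

set_option autoImplicit false

namespace Pool.Agent.R6

open Finset Pool.Agent.DT3 Pool.Agent.CF98

variable {α : Type*} [DecidableEq α] {r : Finset α → ℕ} {E Z K1 K2 S T D : Finset α} {a a' x y : α} {P N : α → Finset α}

theorem DP.Pne (h : DP r E Z a a' K1 K2 P N) (hx : x ∈ K1) (hN : N x ≠ K2) : (P x).Nonempty := by
  rw [nonempty_iff_ne_empty]
  intro h0
  obtain ⟨h1, h2⟩ := h.N1 x hx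
  rw [h0, sdiff_empty] at h1
  rw [h0, empty_union] at h2
  have h3 := h.m2 _ h1 hN
  have h4 := h.rk.le_card (N x)
  omega

theorem DP.Pne' (h : DP r E Z a a' K1 K2 P N) (hx : x ∈ K2) (hN : N x ≠ K1) : (P x).Nonempty := h.swap.Pne hx hN

theorem DP.aK2 (h : DP r E Z a a' K1 K2 P N) : r (insert a K2) = r K2 := by
  have h1 := h.ind K2 subset_union_right (fun h0 => by
    obtain ⟨g, hg⟩ := h.r1
    exact disjoint_left.1 h.dj hg (h0 ▸ mem_union_left K2 hg))
  rw [h1]
  exact h.q2

/-- The two closures of `a`. -/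
theorem DP.two (h : DP r E Z a a' K1 K2 P N) (hx : x ∈ K1 ∪ K2) (S : Finset α)
    (hS : r (insert a (P x ∪ S)) = r (P x ∪ S)) (S' : Finset α)
    (hS' : r (insert a (P x ∪ S')) = r (P x ∪ S')) :
    r (insert a (P x ∪ (S ∪ S'))) + r (P x) + 1 ≤ r (P x ∪ S) + r (P x ∪ S') := by
  have h1 := h.rk.submod (insert a (P x ∪ S)) (insert a (P x ∪ S'))
  have h2 := h.acl hx
  have h3 := h.rk.mono (insert a (P x)) (insert a (P x ∪ S) ∩ insert a (P x ∪ S')) (subset_inter
    (insert_subset_insert a subset_union_left) (insert_subset_insert a subset_union_left))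
  have h4 : insert a (P x ∪ S) ∪ insert a (P x ∪ S') = insert a (P x ∪ (S ∪ S')) := by
    ext z
    simp only [mem_union, mem_insert]
    tauto
  rw [h4] at h1
  omega

theorem sd_self (h : ∀ z ∈ T, z ∉ S) : S \ T = S := by
  ext z
  rw [mem_sdiff]
  exact ⟨fun h1 => h1.1, fun h1 => ⟨h1, fun h2 => h z h2 h1⟩⟩

theorem rk_un_sd (h : RankFn r) (T S : Finset α) : r (T ∪ S) ≤ r T + (S \ T).card := by
  have h1 := rk_le_union_card h T (S \ T)
  rwa [union_sdiff_self_eq_union] at h1

/-- The case in which no `N x`, `x ∈ K2`, is everything. -/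
theorem DP.half (h : DP r E Z a a' K1 K2 P N) (hA : ∀ y ∈ K2, N y ≠ K1) : False := by
  classical
  have hr := h.rk
  set D1 : Finset α := K1.filter fun g => N g ≠ K2 with hD1
  have hD1m : ∀ g, g ∈ D1 ↔ g ∈ K1 ∧ N g ≠ K2 := fun g => mem_filter
  set D : Finset α := D1 ∪ K2 with hDd
  have hD1K : D1 ⊆ K1 := filter_subset _ _
  have hD : D ⊆ K1 ∪ K2 := union_subset_union hD1K (Subset.refl K2)
  have hne : ∀ x ∈ D, (P x).Nonempty := by
    intro x hx
    rcases mem_union.1 hx with hx | hx
    · exact h.Pne ((hD1m x).1 hx).1 ((hD1m x).1 hx).2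
    · exact h.Pne' hx (hA x hx)
  have haD : a ∉ D := fun h1 => h.aZ (h.CZ (hD h1))
  have hK12 : ∀ g, g ∈ K1 → g ∉ K2 := fun g h1 h2 => disjoint_left.1 h.dj h1 h2
  have hcnt := h.count hD hne
  set TT : Finset (Finset α) := D.image P with hTT
  have hTx : ∀ T ∈ TT, ∃ x ∈ D, P x = T := fun T hT => mem_image.1 hT
  have hPT : ∀ T ∈ TT, ∀ x ∈ K1 ∪ K2, x ∈ T → P x = T := by
    intro T hT x hx hxT
    obtain ⟨y, hy, rfl⟩ := hTx T hT
    exact h.eqP (hD hy) hx hxT
  have haT : ∀ T ∈ TT, a ∉ T := by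
    intro T hT
    obtain ⟨x, hx, rfl⟩ := hTx T hT
    exact h.Pa x (hD hx)
  have hNh : ∀ y ∈ K2, N y ⊆ D1 := by
    intro y hy g hg
    have h1 := mem_sdiff.1 ((h.N2 y hy).1 hg)
    refine (hD1m g).2 ⟨h1.1, fun h2 => h.nc g h1.1 y hy (h2 ▸ hy) hg⟩
  -- cardinalities
  have hcU : (insert a D).card = D.card + 1 := card_insert_of_notMem haD
  have hcUT : ∀ T ∈ TT, (insert a D \ T).card = (D \ T).card + 1 := by
    intro T hT
    rw [insert_sdiff_of_notMem _ (haT T hT), card_insert_of_notMem fun h1 => haD (mem_sdiff.1 h1).1]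
  have hcD : ∀ T : Finset α, (D \ T).card = (D1 \ T).card + (K2 \ T).card := by
    intro T
    rw [hDd, union_sdiff_distrib, card_union_of_disjoint]
    exact (h.dj.mono hD1K (Subset.refl K2)).mono sdiff_subset sdiff_subset
  have haK2 := h.aK2
  have haK1 := h.swap.aK2
  have haT2 : ∀ T : Finset α, r (insert a (T ∪ K2)) = r (T ∪ K2) := fun T => hr.mono_insert haK2 subset_union_right
  have haT1 : ∀ T : Finset α, r (insert a (T ∪ K1)) = r (T ∪ K1) := fun T => hr.mono_insert haK1 subset_union_right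
  have hUTr : ∀ T : Finset α, r (insert a D ∪ T) = r (insert a (T ∪ (D1 ∪ K2))) := by
    intro T
    congr 1
    ext z
    simp only [mem_union, mem_insert, hDd]
    tauto
  -- at least two
  have htwo : ∀ T ∈ TT, r (insert a D ∪ T) + 1 ≤ r T + (D \ T).card := by
    intro T hT
    obtain ⟨x0, hx0, hx0T⟩ := hTx T hT
    by_cases hm : ∃ y ∈ K2, y ∈ T
    · obtain ⟨y, hy, hyT⟩ := hm
      have hyC : y ∈ K1 ∪ K2 := mem_union_right K1 hy
      have e0 := hPT T hT y hyC hyT
      obtain ⟨h1, h2⟩ := h.N2 y hy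
      have h3 := h.two hyC (N y) h2 K2 (haT2 _)
      rw [e0] at h1 h3
      have h4 := rk_un_sd hr T (N y)
      have h5 := rk_un_sd hr T K2
      have h6 := rk_un_sd hr (insert a (T ∪ (N y ∪ K2))) D1
      have h7 : insert a (T ∪ (N y ∪ K2)) ∪ D1 = insert a (T ∪ (D1 ∪ K2)) := by
        ext z
        have := @hNh y hy z
        simp only [mem_union, mem_insert]
        tauto
      rw [h7] at h6
      rw [hUTr, hcD]
      have h8 : D1 \ insert a (T ∪ (N y ∪ K2)) ⊆ (D1 \ T) \ (N y \ T) := by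
        intro z hz
        have := mem_sdiff.1 hz
        simp only [mem_insert, mem_union, not_or] at this
        simp only [mem_sdiff, not_and]
        tauto
      have h9 := card_le_card h8
      have h10 : N y \ T ⊆ D1 \ T := sdiff_subset_sdiff (hNh y hy) (Subset.refl T)
      have h11 := card_sdiff_of_subset h10
      have h12 := card_le_card h10
      omega
    · have hTK : K2 \ T = K2 := sd_self fun z hz hz' => hm ⟨z, hz', hz⟩
      by_contra hlt
      have hx0' : x0 ∈ T := by rw [← hx0T]; exact h.xP (hD hx0) (hne x0 hx0)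
      have hx1 : x0 ∈ D1 := by
        rcases mem_union.1 hx0 with h1 | h1
        · exact h1
        · exact absurd ⟨x0, h1, hx0'⟩ hm
      obtain ⟨h1, h2⟩ := (hD1m x0).1 hx1
      have h3 := rk_un_sd hr (insert a (T ∪ K2)) D1
      have h4 : insert a (T ∪ K2) ∪ D1 = insert a (T ∪ (D1 ∪ K2)) := by
        ext z
        simp only [mem_union, mem_insert]
        tauto
      rw [h4, ← hUTr, haT2] at h3
      have h5 : D1 \ insert a (T ∪ K2) ⊆ D1 \ T := by
        intro z hz
        have := mem_sdiff.1 hz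
        simp only [mem_insert, mem_union, not_or] at this
        exact mem_sdiff.2 ⟨this.1, this.2.2.1⟩
      have h6 := card_le_card h5
      rw [hcD] at hlt
      obtain ⟨h7, h8⟩ := h.N1 x0 h1
      rw [hx0T] at h7 h8
      have h9 := h.full (T := T) (by omega) h7 h8
      rw [hTK] at h9
      exact h2 h9
  have hn : ∀ T ∈ TT, (2 : ℤ) ≤ ((insert a D \ T).card : ℤ) - (r (insert a D ∪ T) - r T) := by
    intro T hT
    have h1 := htwo T hT
    have h2 := hcUT T hT
    omega
  have hsum : (2 : ℤ) * TT.card ≤ ∑ T ∈ TT, (((insert a D \ T).card : ℤ) - (r (insert a D ∪ T) - r T)) := by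
    have h1 := card_nsmul_le_sum TT _ (2 : ℤ) hn
    rw [nsmul_eq_mul] at h1
    linarith
  by_cases hfull : D1 = K1
  · -- no `N x` is everything
    have hDC : D = K1 ∪ K2 := by rw [hDd, hfull]
    have hrU : r (insert a D) + 1 = D.card := by
      rw [hDC, haT2]
      exact h.cc
    have hn0 : ((insert a D).card : ℤ) - r (insert a D) = 2 := by omega
    rw [hn0] at hcnt
    set G : Finset (Finset α) := TT.filter fun T => ((insert a D \ T).card : ℤ) - (r (insert a D ∪ T) - r T) = 2 with hG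
    have hG2 : 1 < G.card := by
      by_contra hlt
      have h1 : (TT \ G).card + G.card = TT.card := card_sdiff_add_card_eq_card (filter_subset _ _)
      have h2 : ∑ T ∈ TT, (((insert a D \ T).card : ℤ) - (r (insert a D ∪ T) - r T)) =
          ∑ T ∈ TT \ G, (((insert a D \ T).card : ℤ) - (r (insert a D ∪ T) - r T)) +
          ∑ T ∈ G, (((insert a D \ T).card : ℤ) - (r (insert a D ∪ T) - r T)) :=
        (sum_sdiff (filter_subset _ _)).symm
      have h3 := card_nsmul_le_sum (TT \ G) (fun T => ((insert a D \ T).card : ℤ) - (r (insert a D ∪ T) - r T)) (3 : ℤ)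
        (fun T hT => by
          have h4 := mem_sdiff.1 hT
          have h5 := hn T h4.1
          by_contra h6
          exact h4.2 (mem_filter.2 ⟨h4.1, by omega⟩))
      have h4 := card_nsmul_le_sum G (fun T => ((insert a D \ T).card : ℤ) - (r (insert a D ∪ T) - r T)) (2 : ℤ)
        (fun T hT => hn T (mem_filter.1 hT).1)
      rw [nsmul_eq_mul] at h3 h4
      have h7 : (TT \ G).card + G.card = TT.card := h1
      have h8 : ((TT \ G).card : ℤ) + G.card = TT.card := by exact_mod_cast h7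
      have h9 : (G.card : ℤ) ≤ 1 := by exact_mod_cast not_lt.1 hlt
      linarith
    obtain ⟨T, hT, T', hT', hTT'⟩ := one_lt_card.1 hG2
    -- the structure of such a `T`
    have key : ∀ T ∈ G, (∀ g ∈ K1, g ∈ T → N g = K2 \ T) ∧ (∀ y ∈ K2, y ∈ T → N y = K1 \ T) ∧
        (∃ g ∈ K1, g ∈ T) ∧ (∃ y ∈ K2, y ∈ T) := by
      intro T hT
      obtain ⟨hTT1, hTG⟩ := mem_filter.1 hT
      obtain ⟨x0, hx0, hx0T⟩ := hTx T hTT1
      have k1 := hcUT T hTT1
      have k2 : r (insert a D ∪ T) + 1 = r T + (D \ T).card := by omega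
      have k3 := hcD T
      rw [hfull] at k3
      have k4 := h.two (hD hx0) K1 (haT1 _) K2 (haT2 _)
      rw [hx0T] at k4
      have k5 := rk_un_sd hr T K1
      have k6 := rk_un_sd hr T K2
      rw [hUTr, hfull] at k2
      have l1 : ∀ g ∈ K1, g ∈ T → N g = K2 \ T := by
        intro g hg hgT
        have e0 := hPT T hTT1 g (mem_union_left K2 hg) hgT
        obtain ⟨h7, h8⟩ := h.N1 g hg
        rw [e0] at h7 h8
        exact h.full (T := T) (by omega) h7 h8
      have l2 : ∀ y ∈ K2, y ∈ T → N y = K1 \ T := by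
        intro y hy hyT
        have e0 := hPT T hTT1 y (mem_union_right K1 hy) hyT
        obtain ⟨h7, h8⟩ := h.N2 y hy
        rw [e0] at h7 h8
        exact h.swap.full (T := T) (by omega) h7 h8
      have hx0' : x0 ∈ T := by rw [← hx0T]; exact h.xP (hD hx0) (hne x0 hx0)
      refine ⟨l1, l2, ?_, ?_⟩
      · rcases mem_union.1 (hD hx0) with h1 | h1
        · exact ⟨x0, h1, hx0'⟩
        · by_contra hno
          refine hA x0 h1 ?_
          rw [l2 x0 h1 hx0']
          exact sd_self fun z hz hz' => hno ⟨z, hz', hz⟩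
      · rcases mem_union.1 (hD hx0) with h1 | h1
        · by_contra hno
          have h2 : x0 ∈ D1 := by rw [hfull]; exact h1
          refine ((hD1m x0).1 h2).2 ?_
          rw [l1 x0 h1 hx0']
          exact sd_self fun z hz hz' => hno ⟨z, hz', hz⟩
        · exact ⟨x0, h1, hx0'⟩
    obtain ⟨l1, -, ⟨g, hg, hgT⟩, -⟩ := key T hT
    obtain ⟨-, l2, -, ⟨y, hy, hyT⟩⟩ := key T' hT'
    have hdd : Disjoint T T' := by
      obtain ⟨x1, hx1, rfl⟩ := hTx T (mem_filter.1 hT).1
      obtain ⟨x2, hx2, rfl⟩ := hTx T' (mem_filter.1 hT').1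
      exact h.djP (hD hx1) (hD hx2) (hne x1 hx1) (hne x2 hx2) hTT'
    have m1 : y ∈ N g := by
      rw [l1 g hg hgT]
      exact mem_sdiff.2 ⟨hy, fun h1 => disjoint_left.1 hdd h1 hyT⟩
    have m2 : g ∈ N y := by
      rw [l2 y hy hyT]
      exact mem_sdiff.2 ⟨hg, fun h1 => disjoint_left.1 hdd hgT h1⟩
    exact h.nc g hg y hy m1 m2
  · -- some `N x` is everything
    have hDne : D ≠ K1 ∪ K2 := by
      intro h0
      refine hfull (Subset.antisymm hD1K fun g hg => ?_)
      have h1 : g ∈ D := by rw [h0]; exact mem_union_left K2 hg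
      rcases mem_union.1 h1 with h2 | h2
      · exact h2
      · exact absurd h2 (hK12 g hg)
    have hrD := h.ind D hD hDne
    have hrU : r (insert a D) = r D := by
      rw [hDd]
      exact haT2 D1
    have hn0 : ((insert a D).card : ℤ) - r (insert a D) = 1 := by omega
    rw [hn0] at hcnt
    linarith

/-- The configuration is impossible. -/
theorem DP.false (h : DP r E Z a a' K1 K2 P N) : False := by
  by_cases hA : ∀ y ∈ K2, N y ≠ K1
  · exact h.half hA
  by_cases hB : ∀ y ∈ K1, N y ≠ K2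
  · exact h.swap.half hB
  push Not at hA hB
  obtain ⟨y, hy, hyN⟩ := hA
  obtain ⟨g, hg, hgN⟩ := hB
  exact h.nc g hg y hy (hgN ▸ hy) (hyN ▸ hg)

end Pool.Agent.R6
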