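import Pool.Agent.R6.Tok
import Pool.Agent.R6.I1B

/-!
Note 2486 of MP_e6151a_ag: if there are no tight sets then the largest tight flat of a set of `f + 1` elements with good bases of both
colours has rank at least two.
-/

set_option autoImplicit false

namespace Pool.Agent.R6

open Finset Pool.Agent.DT3 Pool.Agent.CF98 Pool.Agent.WT59 Pool.Agent.WG59 Pool.Agent.EX59 Pool.Agent.SA65

variable {α : Type*} [DecidableEq α] {r : Finset α → ℕ} {E F X Y Z A B J b b' : Finset α} {x y : α} {f : ℕ}
  {Q : Finset α → Prop}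

/-- The largest tight flat has rank at least two. -/
theorem two_le_ff (hE : Env r E f) (hs : Strict r E) (hQ : ∀ A A', Stp r E f A A' → Q A → Q A') (hZ : Z ⊆ E)
    (hZc : Z.card = f + 1) (hb : Gd r E f b) (hbZ : b ⊆ Z) (hb' : Gd r E f b') (hbZ' : b' ⊆ Z) (hq : Q b)
    (hq' : ¬ Q b') : 2 ≤ r (FF r r E Z) := by
  classical
  by_contra hlt
  have hr := hE.rk
  have hok : Ok r r E Z := ok_sub (gd_ok hE hb) hbZ
  have hN := napZ hE hQ hZ hZc hb hbZ hb' hbZ' hq hq'
  set F : Finset α := FF r r E Z with hFd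
  have hFE : F ⊆ E := FF_sub
  have hFt : Ti r r Z F := FF_ti hr hr hok
  unfold Ti at hFt
  have hEc := hE.card
  have hEr := hE.rank
  have hl : ∀ e ∈ E, 0 < r {e} := by
    intro e he
    have h1 := hs {e} (singleton_subset_iff.2 he) (singleton_nonempty e) (fun h0 => by
      rw [← h0, card_singleton] at hEc
      omega)
    rw [card_singleton] at h1
    omega
  have hfpos : 1 ≤ f := by
    by_contra h0
    have h1 : E.card = 0 := by omega
    have h2 := card_le_card hZ
    omega
  have hZr : r Z = f := by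
    have h1 := hr.mono b Z hbZ
    have h2 := hr.mono Z E hZ
    have h3 := hb.2.1.2
    omega
  -- `F` does not meet `Z`
  have hFZ : F \ Z = F := by
    rcases Nat.eq_zero_or_pos (r F) with h0 | h0
    · have h1 : F = ∅ := by
        rw [eq_empty_iff_forall_notMem]
        intro z hz
        have h2 := hl z (hFE hz)
        have h3 := hr.mono {z} F (singleton_subset_iff.2 hz)
        omega
      rw [h1, empty_sdiff]
    · have h1 : F.Nonempty := by
        rw [nonempty_iff_ne_empty]
        intro h2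
        rw [h2, hr.empty] at h0
        omega
      have h2 : F ≠ E := by
        intro h2
        have h3 := card_sdiff_add_card_eq_card hZ
        rw [h2] at hFt
        have h4 : r F = f := by rw [h2, hEr]
        omega
      have h3 := hs F hFE h1 h2
      refine eq_of_subset_of_card_le sdiff_subset ?_
      omega
  have hFZ' : ∀ z ∈ F, z ∉ Z := by
    intro z hz
    rw [← hFZ] at hz
    exact (mem_sdiff.1 hz).2
  set K1 : Finset α := TK r E f Q Z with hK1
  set K2 : Finset α := TK r E f (fun A => ¬ Q A) Z with hK2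
  have m1 : ∀ x, x ∈ K1 ↔ x ∈ Z ∧ Gd r E f (Z.erase x) ∧ Q (Z.erase x) := fun x => mem_TK
  have m2 : ∀ x, x ∈ K2 ↔ x ∈ Z ∧ Gd r E f (Z.erase x) ∧ ¬ Q (Z.erase x) := fun x => mem_TK
  have hdj : Disjoint K1 K2 := by
    rw [disjoint_left]
    intro z hz hz'
    exact ((m2 z).1 hz').2.2 ((m1 z).1 hz).2.2
  have hCm : ∀ x, x ∈ K1 ∪ K2 ↔ x ∈ Z ∧ Gd r E f (Z.erase x) := by
    intro x
    rw [mem_union, m1, m2]
    tauto
  have hCf : K1 ∪ K2 = Z.filter fun c => r (Z.erase c) = r Z := by
    ext x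
    rw [hCm, mem_filter, hZr]
    constructor
    · rintro ⟨h1, h2⟩
      exact ⟨h1, h2.2.1.2⟩
    · rintro ⟨h1, h2⟩
      exact ⟨h1, gd_er hZ hZc hok h1 h2 fun h3 => hFZ' x h3 h1⟩
  have hcc := circ_card hr (G := Z) (by omega)
  rw [← hCf] at hcc
  have hind : ∀ S, S ⊆ K1 ∪ K2 → S ≠ K1 ∪ K2 → r S = S.card := by
    intro S hS hne
    have h1 : ¬ K1 ∪ K2 ⊆ S := fun h2 => hne (Subset.antisymm hS h2)
    obtain ⟨c, hc, hcS⟩ := not_subset.1 h1
    have h3 := (hCm c).1 hc
    refine ind_sub hr (Y := Z.erase c) ?_ ?_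
    · rw [h3.2.2.1.2, card_erase_of_mem h3.1]
      omega
    · intro z hz
      exact mem_erase.2 ⟨fun e => hcS (e ▸ hz), ((hCm z).1 (hS hz)).1⟩
  obtain ⟨g1, hg1⟩ := hN.n1
  obtain ⟨g2, hg2⟩ := hN.n2
  have hcd : (K1 ∪ K2).card = K1.card + K2.card := card_union_of_disjoint hdj
  have hne1 : ∀ S ⊆ K1, S ≠ K1 ∪ K2 := by
    intro S hS h0
    have h1 : g2 ∈ S := by rw [h0]; exact mem_union_right K1 hg2
    exact disjoint_left.1 hdj (hS h1) hg2
  have hne2 : ∀ S ⊆ K2, S ≠ K1 ∪ K2 := by
    intro S hS h0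
    have h1 : g1 ∈ S := by rw [h0]; exact mem_union_left K2 hg1
    exact disjoint_left.1 hdj hg1 (hS h1)
  have r1 := hind K1 subset_union_left (hne1 K1 (Subset.refl K1))
  have r2 := hind K2 subset_union_right (hne2 K2 (Subset.refl K2))
  have hsk := hN.sk
  rcases Nat.eq_zero_or_pos (r F) with h0 | h0
  · have h1 : F = ∅ := by
      rw [eq_empty_iff_forall_notMem]
      intro z hz
      have h2 := hl z (hFE hz)
      have h3 := hr.mono {z} F (singleton_subset_iff.2 hz)
      omega
    rw [h1, empty_union, empty_union, empty_union, hr.empty] at hsk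
    omega
  have hF1 : r F = 1 := by omega
  rw [hFZ, hF1] at hFt
  obtain ⟨a, a', haa, hFa⟩ := card_eq_two.1 hFt
  have haF : a ∈ F := by rw [hFa]; exact mem_insert_self a {a'}
  have haF' : a' ∈ F := by rw [hFa]; exact mem_insert_of_mem (mem_singleton_self a')
  have ha1 : r {a} = 1 := by
    have h1 := hl a (hFE haF)
    have h2 := hr.mono {a} F (singleton_subset_iff.2 haF)
    omega
  have ha1' : r {a'} = 1 := by
    have h1 := hl a' (hFE haF')
    have h2 := hr.mono {a'} F (singleton_subset_iff.2 haF')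
    omega
  have hr2 : r {a, a'} = 1 := by rw [← hFa]; exact hF1
  have haZ : a ∉ Z := hFZ' a haF
  have haZ' : a' ∉ Z := hFZ' a' haF'
  have hFS : ∀ S : Finset α, r (F ∪ S) = r (insert a S) := by
    intro S
    have h1 : r (insert a' {a}) = r {a} := by
      rw [ha1, pair_comm]
      exact hr2
    have h2 := hr.mono_insert h1 (singleton_subset_iff.2 (mem_insert_self a S))
    rw [← h2, hFa]
    congr 1
    ext z
    simp only [mem_union, mem_insert, mem_singleton]
    tauto
  rw [hFS, hFS, hFS, hF1] at hsk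
  have hub : ∀ S : Finset α, r S ≤ r (insert a S) := fun S => hr.mono _ _ (subset_insert a S)
  have hup : ∀ S : Finset α, r (insert a S) ≤ r S + 1 := fun S => hr.insert_le a S
  have hcl : ∀ S ⊆ K1 ∪ K2, r (insert a S) = r S → r (insert a (K1 ∪ K2)) = r (K1 ∪ K2) :=
    fun S hS h1 => hr.mono_insert h1 hS
  have haC : r (insert a (K1 ∪ K2)) = r (K1 ∪ K2) := by
    by_contra h1
    have h2 : r (insert a K1) ≠ r K1 := fun h3 => h1 (hcl K1 subset_union_left h3)
    have h3 : r (insert a K2) ≠ r K2 := fun h3 => h1 (hcl K2 subset_union_right h3)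
    have h4 := rk_ins_ne hr h1
    have h5 := rk_ins_ne hr h2
    have h6 := rk_ins_ne hr h3
    omega
  have q1 : r (insert a K1) = K1.card := by
    have h1 := hub K1
    have h2 := hub K2
    omega
  have q2 : r (insert a K2) = K2.card := by
    have h1 := hub K1
    have h2 := hub K2
    omega
  -- minimality
  have hmin : ∀ S T : Finset α, S ⊆ K1 ∪ K2 → T ⊆ K1 ∪ K2 → Disjoint S T → S ∪ T ≠ K1 ∪ K2 → r S = S.card →
      r (insert a T) = T.card → r (insert a S) = S.card + 1 := by
    intro S T hS hT hd hne hS1 hT1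
    by_contra h1
    have h2 : r (insert a S) = r S := by
      rcases hr.insert_eq a S with h3 | h3
      · exact h3
      · omega
    have h3 := hr.submod (insert a S) (insert a T)
    have h4 : r {a} ≤ r (insert a S ∩ insert a T) := hr.mono _ _ (singleton_subset_iff.2
      (mem_inter.2 ⟨mem_insert_self a S, mem_insert_self a T⟩))
    have h5 := hr.mono (S ∪ T) (insert a S ∪ insert a T)
      (union_subset_union (subset_insert a S) (subset_insert a T))
    have h6 := hind _ (union_subset hS hT) hne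
    have h7 : (S ∪ T).card = S.card + T.card := card_union_of_disjoint hd
    omega
  have hPok : ∀ x ∈ K1 ∪ K2, Ok r r E ((insert a Z).erase x) := by
    intro x hx
    refine ok_sub (gd_ok hE ((hCm x).1 hx).2) ?_
    exact erase_subset_erase x (subset_insert a Z)
  have hxa : ∀ x ∈ Z, a ≠ x := fun x hx e => haZ (e ▸ hx)
  have hins : ∀ x ∈ Z, insert a (Z.erase x) = (insert a Z).erase x := by
    intro x hx
    rw [erase_insert_of_ne (hxa x hx)]
  have hPt : ∀ x ∈ K1 ∪ K2, Ti r r ((insert a Z).erase x) (FF r r E ((insert a Z).erase x)) := fun x hx =>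
    FF_ti hr hr (hPok x hx)
  have hPa : ∀ x ∈ K1 ∪ K2, a ∉ FF r r E ((insert a Z).erase x) := by
    intro x hx
    have h1 := (hCm x).1 hx
    exact ti_disj (gd_ok hE h1.2) (erase_subset_erase x (subset_insert a Z)) FF_sub (hPt x hx) a
      (mem_erase.2 ⟨hxa x h1.1, mem_insert_self a Z⟩) (fun h2 => haZ (mem_of_mem_erase h2))
  let N : α → Finset α := fun x => (Z.erase x).filter fun y => y ∉ FF r r E ((insert a Z).erase x) ∧
    r (insert a ((Z.erase x).erase y)) = f ∧ (Q (Z.erase x) ↔ Q (insert a ((Z.erase x).erase y)))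
  have hNm : ∀ x y, y ∈ N x ↔ y ∈ Z.erase x ∧ y ∉ FF r r E ((insert a Z).erase x) ∧
      r (insert a ((Z.erase x).erase y)) = f ∧ (Q (Z.erase x) ↔ Q (insert a ((Z.erase x).erase y))) :=
    fun x y => mem_filter
  have hNs : ∀ x ∈ K1 ∪ K2, r (insert a (FF r r E ((insert a Z).erase x) ∪ N x)) =
      r (FF r r E ((insert a Z).erase x) ∪ N x) := by
    intro x hx
    have h1 := (hCm x).1 hx
    have h2 : a ∈ E \ Z.erase x := mem_sdiff.2 ⟨hFE haF, fun h3 => haZ (mem_of_mem_erase h3)⟩
    have h3 := DP91.tg_ff hE h1.2 h2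
    rw [hins x h1.1] at h3
    exact tst hE hQ h1.2 h2 h3 (hNm x)
  have hNK : ∀ x ∈ K1 ∪ K2, ∀ K ⊆ K1 ∪ K2, x ∉ K → r (insert a K) = K.card → N x ⊆ K := by
    intro x hx K hK hxK hK1 y hy
    by_contra hyK
    have h1 := (hCm x).1 hx
    obtain ⟨h2, -, h3, -⟩ := (hNm x y).1 hy
    have haK : a ∉ K := fun h4 => haZ ((hCm a).1 (hK h4)).1
    have h4 : (insert a ((Z.erase x).erase y)).card = f := by
      rw [card_insert_of_notMem, card_erase_of_mem h2, card_erase_of_mem h1.1]
      · omega
      · exact fun h5 => haZ (mem_of_mem_erase (mem_of_mem_erase h5))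
    have h5 : insert a K ⊆ insert a ((Z.erase x).erase y) := by
      refine insert_subset_insert a fun z hz => ?_
      exact mem_erase.2 ⟨fun e => hyK (e ▸ hz), mem_erase.2 ⟨fun e => hxK (e ▸ hz), ((hCm z).1 (hK hz)).1⟩⟩
    have h6 := ind_sub hr (by rw [h3, h4]) h5
    rw [card_insert_of_notMem haK] at h6
    omega
  have hNP : ∀ x, ∀ y ∈ N x, y ∉ FF r r E ((insert a Z).erase x) := fun x y hy => ((hNm x y).1 hy).2.1
  refine DP.false (r := r) (E := E) (Z := Z) (a := a) (a' := a') (K1 := K1) (K2 := K2)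
    (P := fun x => FF r r E ((insert a Z).erase x)) (N := N) ?_
  refine ⟨hr, hZ, hFE haF, hFE haF', haa, haZ, haZ', hr2, ha1, ha1', ?_, ?_, fun x hx => ((m1 x).1 hx).1,
    fun x hx => ((m2 x).1 hx).1, hdj, hind, by omega, q1, q2, ?_, ?_, fun x hx => FF_sub, ?_, ?_, ?_, hPa, ?_, ?_, ?_,
    ⟨g1, hg1⟩, ⟨g2, hg2⟩⟩
  · intro X hX
    have := hok X hX
    omega
  · intro X hX h1
    rw [← hFa]
    exact FF_max hX (by unfold Ti; omega)
  · intro S hS hne
    refine hmin S K2 (hS.trans subset_union_left) subset_union_right (hdj.mono hS (Subset.refl K2)) ?_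
      (hind S (hS.trans subset_union_left) (hne1 S hS)) q2
    intro h1
    refine hne (Subset.antisymm hS fun z hz => ?_)
    have h2 : z ∈ S ∪ K2 := by rw [h1]; exact mem_union_left K2 hz
    rcases mem_union.1 h2 with h3 | h3
    · exact h3
    · exact absurd h3 (disjoint_left.1 hdj hz)
  · intro S hS hne
    refine hmin S K1 (hS.trans subset_union_right) subset_union_left (hdj.symm.mono hS (Subset.refl K1)) ?_
      (hind S (hS.trans subset_union_right) (hne2 S hS)) q1
    intro h1
    refine hne (Subset.antisymm hS fun z hz => ?_)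
    have h2 : z ∈ S ∪ K1 := by rw [h1]; exact mem_union_right K1 hz
    rcases mem_union.1 h2 with h3 | h3
    · exact h3
    · exact absurd hz (disjoint_left.1 hdj h3)
  · intro x hx
    have := hPt x hx
    unfold Ti at this
    omega
  · intro x hx X hX
    have := hPok x hx X hX
    omega
  · intro x hx X hX h1
    exact FF_max hX (by unfold Ti; omega)
  · intro x hx
    have hxC : x ∈ K1 ∪ K2 := mem_union_left K2 hx
    refine ⟨fun y hy => mem_sdiff.2 ⟨hNK x hxC K2 subset_union_right (disjoint_left.1 hdj hx) q2 hy, hNP x y hy⟩,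
      hNs x hxC⟩
  · intro x hx
    have hxC : x ∈ K1 ∪ K2 := mem_union_right K1 hx
    refine ⟨fun y hy => mem_sdiff.2 ⟨hNK x hxC K1 subset_union_left (fun h1 => disjoint_left.1 hdj h1 hx) q1 hy,
      hNP x y hy⟩, hNs x hxC⟩
  · intro g hg y hy h1 h2
    have h3 := ((hNm g y).1 h1).2.2.2
    have h4 := ((hNm y g).1 h2).2.2.2
    rw [erase_right_comm] at h4
    exact ((m2 y).1 hy).2.2 (h4.2 (h3.1 ((m1 g).1 hg).2.2))

end Pool.Agent.R6
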