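import Pool.Agent.R6.Tok

/-!
Rank six (note 3130 of MP_e6151a_ag), part (C): there are at most three bichromatic pairs.
-/

set_option autoImplicit false

namespace Pool.Agent.R6

open Finset Pool.Agent.DT3 Pool.Agent.CF98 Pool.Agent.WT59 Pool.Agent.WG59 Pool.Agent.EX59 Pool.Agent.SA65

variable {α : Type*} [DecidableEq α] {r : Finset α → ℕ} {E Z JF BF J L L' : Finset α} {x y z s t : α}
  {Q : Finset α → Prop}

/-- The rank function of the contraction of the largest tight set. -/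
noncomputable def cr (r : Finset α → ℕ) (E Z : Finset α) : Finset α → ℕ :=
  fun X => r (X ∪ FF r r E Z) - r (FF r r E Z)

/-- The part of the complement of `Z` outside the largest tight set. -/
noncomputable def SS (r : Finset α → ℕ) (E Z : Finset α) : Finset α := (E \ Z) \ FF r r E Z

/-- The standing data. -/
structure Cf (r : Finset α → ℕ) (E : Finset α) (Q : Finset α → Prop) (Z JF BF : Finset α) (x y : α) : Prop where
  env : Env r E 6
  inv : ∀ A A', Stp r E 6 A A' → Q A → Q A'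
  z : Z6 r E Q Z
  un : JF ∪ BF = FF r r E Z \ Z
  dj : Disjoint JF BF
  cj : JF.card = 2
  cb : BF.card = 2
  rj : r JF = 2
  rb : r BF = 2
  hx : x ∈ TK r E 6 Q Z
  hy : y ∈ TK r E 6 (fun A => ¬ Q A) Z
  all : ∀ Z', Z' ⊆ E → Z'.card = 7 → (∃ b, Gd r E 6 b ∧ b ⊆ Z' ∧ Q b) →
    (∃ b, Gd r E 6 b ∧ b ⊆ Z' ∧ ¬ Q b) → Z6 r E Q Z'
  na : NA (cr r E Z) (SS r E Z) x y

theorem Cf.cr_eq (h : Cf r E Q Z JF BF x y) (X : Finset α) : r (X ∪ FF r r E Z) = cr r E Z X + 2 := by
  have h1 := h.env.rk.mono (FF r r E Z) (X ∪ FF r r E Z) subset_union_right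
  have h2 := h.z.rF
  unfold cr
  omega

theorem Cf.mem_SS (_ : Cf r E Q Z JF BF x y) : z ∈ SS r E Z ↔ z ∈ E ∧ z ∉ Z ∧ z ∉ FF r r E Z := by
  unfold SS
  simp only [mem_sdiff, and_assoc]

theorem Cf.bFF (h : Cf r E Q Z JF BF x y) : z ∈ FF r r E Z ∧ z ∉ Z ↔ z ∈ JF ∨ z ∈ BF := by
  rw [← mem_union, h.un, mem_sdiff]

theorem Cf.rkB (h : Cf r E Q Z JF BF x y) (X : Finset α) : r (BF ∪ X) = cr r E Z X + 2 := by
  have h1 : BF ⊆ FF r r E Z := fun w hw => (h.bFF.2 (Or.inr hw)).1
  rw [rk_cup_congr h.env.rk h1 (by rw [h.rb, h.z.rF]), union_comm, h.cr_eq]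

theorem Cf.rkJ (h : Cf r E Q Z JF BF x y) (X : Finset α) : r (JF ∪ X) = cr r E Z X + 2 := by
  have h1 : JF ⊆ FF r r E Z := fun w hw => (h.bFF.2 (Or.inl hw)).1
  rw [rk_cup_congr h.env.rk h1 (by rw [h.rj, h.z.rF]), union_comm, h.cr_eq]

private theorem C_set {F S : Finset α} (hb : ∀ w, w ∈ F ∧ w ∉ Z ↔ w ∈ JF ∨ w ∈ BF)
    (hs : ∀ w, w ∈ S ↔ w ∈ E ∧ w ∉ Z ∧ w ∉ F) (hJ : ∀ w ∈ J, w ∈ S) (hF : F ⊆ E) (hZ : Z ⊆ E) (hz : z ∈ Z)
    (hd : Disjoint JF BF) : E \ (Z.erase z ∪ (BF ∪ (S \ J))) = JF ∪ insert z J := by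
  ext w
  have b1 := hb w
  have s1 := hs w
  have j1 := hJ w
  rw [mem_sdiff, mem_union, mem_union, mem_sdiff, mem_erase, mem_union, mem_insert]
  constructor
  · rintro ⟨hE, hn⟩
    by_cases hw : w ∈ Z
    · exact Or.inr (Or.inl (by_contra fun h => hn (Or.inl ⟨h, hw⟩)))
    · by_cases hwF : w ∈ F
      · rcases b1.1 ⟨hwF, hw⟩ with h | h
        · exact Or.inl h
        · exact absurd (Or.inr (Or.inl h)) hn
      · exact Or.inr (Or.inr (by_contra fun h => hn (Or.inr (Or.inr ⟨s1.2 ⟨hE, hw, hwF⟩, h⟩))))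
  · rintro (h | h | h)
    · have h2 := b1.2 (Or.inl h)
      refine ⟨hF h2.1, ?_⟩
      rintro (h3 | h3 | h3)
      · exact h2.2 h3.2
      · exact Finset.disjoint_left.1 hd h h3
      · exact (s1.1 h3.1).2.2 h2.1
    · subst h
      refine ⟨hZ hz, ?_⟩
      rintro (h3 | h3 | h3)
      · exact h3.1 rfl
      · exact (b1.2 (Or.inr h3)).2 hz
      · exact (s1.1 h3.1).2.1 hz
    · have h2 := s1.1 (j1 h)
      refine ⟨h2.1, ?_⟩
      rintro (h3 | h3 | h3)
      · exact h2.2.1 h3.2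
      · exact h2.2.2 (b1.2 (Or.inr h3)).1
      · exact h3.2 h

/-- The state given by a good triple. -/
theorem Cf.st (h : Cf r E Q Z JF BF x y) (hz : z ∈ Z) (hg : Gd r E 6 (Z.erase z))
    (hJ : Rd (cr r E Z) (SS r E Z) z J) : Stp r E 6 (Z.erase z) (BF ∪ (SS r E Z \ J)) := by
  have hS7 := h.na.c7
  have hFE : FF r r E Z ⊆ E := FF_sub
  have hJS : ∀ w ∈ J, w ∈ SS r E Z := fun w hw => hJ.sub hw
  have d1 : Disjoint BF (SS r E Z \ J) := by
    rw [disjoint_left]
    intro w hw hw'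
    exact (h.mem_SS.1 (mem_sdiff.1 hw').1).2.2 (h.bFF.2 (Or.inr hw)).1
  have d2 : Disjoint JF (insert z J) := by
    rw [disjoint_left]
    intro w hw hw'
    have h1 := h.bFF.2 (Or.inl hw)
    rcases mem_insert.1 hw' with rfl | hw'
    · exact h1.2 hz
    · exact (h.mem_SS.1 (hJS w hw')).2.2 h1.1
  have hzJ : z ∉ J := fun h' => (h.mem_SS.1 (hJS z h')).2.1 hz
  have c1 := card_sdiff_add_card_eq_card hJ.sub
  have c2 := hJ.card
  have e1 : E \ (Z.erase z ∪ (BF ∪ (SS r E Z \ J))) = JF ∪ insert z J :=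
    C_set (fun _ => h.bFF) (fun _ => h.mem_SS) hJS hFE h.z.sub hz h.dj
  refine gd_stp h.env ((erase_subset _ _).trans h.z.sub) hg.2.1 ?_ ?_ ⟨?_, ?_⟩ ⟨?_, ?_⟩
  · intro w hw
    rcases mem_union.1 hw with hw | hw
    · exact hFE (h.bFF.2 (Or.inr hw)).1
    · exact (h.mem_SS.1 (mem_sdiff.1 hw).1).1
  · rw [disjoint_left]
    intro w hw hw'
    have hw := mem_of_mem_erase hw
    rcases mem_union.1 hw' with hw' | hw'
    · exact (h.bFF.2 (Or.inr hw')).2 hw
    · exact (h.mem_SS.1 (mem_sdiff.1 hw').1).2.1 hw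
  · rw [card_union_of_disjoint d1, h.cb]
    omega
  · rw [h.rkB, hJ.co]
  · rw [e1, card_union_of_disjoint d2, card_insert_of_notMem hzJ, h.cj, hJ.card]
  · rw [e1, h.rkJ, hJ.r4]

/-- The set `Z_L`. -/
noncomputable def ZL (r : Finset α → ℕ) (E Z BF L : Finset α) : Finset α := BF ∪ (SS r E Z \ L)

private theorem C_set2 {S : Finset α} (hs : s ∉ BF) :
    (BF ∪ (S \ L)).erase s = BF ∪ (S \ insert s L) := by
  ext w
  rw [mem_erase, mem_union, mem_sdiff, mem_union, mem_sdiff, mem_insert]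
  constructor
  · rintro ⟨h1, h2 | h2⟩
    · exact Or.inl h2
    · exact Or.inr ⟨h2.1, fun h3 => h3.elim h1 h2.2⟩
  · rintro (h2 | h2)
    · exact ⟨fun h => hs (h ▸ h2), Or.inl h2⟩
    · exact ⟨fun h => h2.2 (Or.inl h), Or.inr ⟨h2.1, fun h => h2.2 (Or.inr h)⟩⟩

theorem Cf.zl_erase (h : Cf r E Q Z JF BF x y) (hs : s ∈ SS r E Z \ L) :
    (ZL r E Z BF L).erase s = BF ∪ (SS r E Z \ insert s L) := by
  have hs' := mem_sdiff.1 hs
  have hs'' := h.mem_SS.1 hs'.1
  unfold ZL
  exact C_set2 fun hB => hs''.2.2 (h.bFF.2 (Or.inr hB)).1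

theorem Cf.red (h : Cf r E Q Z JF BF x y) (hs : s ∈ SS r E Z \ L)
    (hJ : Rd (cr r E Z) (SS r E Z) x (insert s L)) : s ∈ TK r E 6 Q (ZL r E Z BF L) := by
  have hx := mem_TK.1 h.hx
  have h1 := h.st hx.1 hx.2.1 hJ
  rw [mem_TK, h.zl_erase hs]
  refine ⟨mem_union_right _ hs, stp_right h.env h1, h.inv _ _ h1 hx.2.2⟩

theorem Cf.blue (h : Cf r E Q Z JF BF x y) (hs : s ∈ SS r E Z \ L)
    (hJ : Rd (cr r E Z) (SS r E Z) y (insert s L)) : s ∈ TK r E 6 (fun A => ¬ Q A) (ZL r E Z BF L) := by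
  have hy := mem_TK.1 h.hy
  have h1 := h.st hy.1 hy.2.1 hJ
  rw [mem_TK, h.zl_erase hs]
  refine ⟨mem_union_right _ hs, stp_right h.env h1, fun h2 => hy.2.2 (h.inv _ _ (stp_symm h1) h2)⟩

theorem Cf.zl6 (h : Cf r E Q Z JF BF x y) (hL : Bi (cr r E Z) (SS r E Z) x y L) :
    Z6 r E Q (ZL r E Z BF L) := by
  obtain ⟨s, hs, hR⟩ := hL.red
  obtain ⟨t, ht, hB⟩ := hL.blue
  have hFE : FF r r E Z ⊆ E := FF_sub
  have h1 := mem_TK.1 (h.red hs hR)
  have h2 := mem_TK.1 (h.blue ht hB)
  refine h.all _ ?_ ?_ ⟨_, h1.2.1, erase_subset _ _, h1.2.2⟩ ⟨_, h2.2.1, erase_subset _ _, h2.2.2⟩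
  · intro w hw
    rcases mem_union.1 hw with hw | hw
    · exact hFE (h.bFF.2 (Or.inr hw)).1
    · exact (h.mem_SS.1 (mem_sdiff.1 hw).1).1
  · have d1 : Disjoint BF (SS r E Z \ L) := by
      rw [disjoint_left]
      intro w hw hw'
      exact (h.mem_SS.1 (mem_sdiff.1 hw').1).2.2 (h.bFF.2 (Or.inr hw)).1
    have c1 := card_sdiff_add_card_eq_card hL.sub
    have c2 := hL.card
    have c3 := h.na.c7
    unfold ZL
    rw [card_union_of_disjoint d1, h.cb]
    omega

/-- At least four tokens. -/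
theorem Cf.four_tok (h : Cf r E Q Z JF BF x y) :
    4 ≤ (TK r E 6 Q Z ∪ TK r E 6 (fun A => ¬ Q A) Z).card := by
  have h1 := h.z.a2
  have h2 := h.z.b2
  have h3 : Disjoint (TK r E 6 Q Z) (TK r E 6 (fun A => ¬ Q A) Z) := by
    rw [disjoint_left]
    intro w hw hw'
    exact (mem_TK.1 hw').2.2 (mem_TK.1 hw).2.2
  rw [card_union_of_disjoint h3]
  omega

/-- Subsets of `Z` with at most three elements are independent. -/
theorem Cf.indZ (h : Cf r E Q Z JF BF x y) {X : Finset α} (hX : X ⊆ Z) (hc : X.card ≤ 3) : r X = X.card := by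
  have h1 := h.four_tok
  obtain ⟨u, hu, huX⟩ : ∃ u ∈ TK r E 6 Q Z ∪ TK r E 6 (fun A => ¬ Q A) Z, u ∉ X := by
    by_contra hcon
    push Not at hcon
    have := card_le_card (show TK r E 6 Q Z ∪ TK r E 6 (fun A => ¬ Q A) Z ⊆ X from hcon)
    omega
  have hg : Gd r E 6 (Z.erase u) := by
    rcases mem_union.1 hu with hu | hu
    · exact (mem_TK.1 hu).2.1
    · exact (mem_TK.1 hu).2.1
  exact ind_sub h.env.rk (Y := Z.erase u) (by rw [hg.2.1.1, hg.2.1.2])
    (fun w hw => mem_erase.2 ⟨fun h' => huX (h' ▸ hw), hX hw⟩)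

/-- (C1) -/
theorem Cf.c1 (h : Cf r E Q Z JF BF x y) (hL : Bi (cr r E Z) (SS r E Z) x y L) :
    (FF r r E (ZL r E Z BF L) ∩ Z).card ≤ 2 := by
  by_contra hlt
  obtain ⟨X, hX, hXc⟩ := Finset.exists_subset_card_eq (show 3 ≤ (FF r r E (ZL r E Z BF L) ∩ Z).card by omega)
  have h1 := h.indZ (hX.trans inter_subset_right) (by omega)
  have h2 := h.env.rk.mono X (FF r r E (ZL r E Z BF L)) (hX.trans inter_subset_left)
  have h3 := (h.zl6 hL).rF
  omega

/-- Three elements of rank two over the largest tight set do not exist. -/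
theorem Cf.ind3 (h : Cf r E Q Z JF BF x y) {X : Finset α} (hX : X ⊆ SS r E Z) (hc : X.card ≤ 3) :
    r (X ∪ FF r r E Z) = X.card + 2 := by
  rw [h.cr_eq, h.na.ind3 hX hc]

/-- (C2) -/
theorem Cf.c2 (h : Cf r E Q Z JF BF x y) (hL : Bi (cr r E Z) (SS r E Z) x y L) :
    Disjoint (FF r r E (ZL r E Z BF L)) JF := by
  rw [disjoint_left]
  intro p hp hpJ
  have hr := h.env.rk
  have hz := h.zl6 hL
  obtain ⟨s, hs, hR⟩ := hL.red
  have hsT := h.red hs hR
  have hs' := mem_sdiff.1 hs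
  set G : Finset α := FF r r E (ZL r E Z BF L) with hG
  set F : Finset α := FF r r E Z with hF
  have hGE : G ⊆ E := FF_sub
  have hFE : F ⊆ E := FF_sub
  have hGr : r G = 2 := hz.rF
  have hFr : r F = 2 := h.z.rF
  -- a second red token
  obtain ⟨s', hs'T, hne⟩ : ∃ s' ∈ TK r E 6 Q (ZL r E Z BF L), s' ≠ s :=
    exists_mem_ne (by have := hz.a2; omega) s
  have hnl : ∀ w ∈ TK r E 6 Q (ZL r E Z BF L), r (insert w G) ≠ r G :=
    fun w hw => hz.na.nl w (mem_union_left _ hw)
  have hss : r (G ∪ {s, s'}) ≤ 3 := by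
    rw [← hz.ra]
    refine hr.mono _ _ (union_subset_union_right ?_)
    intro w hw
    rcases mem_insert.1 hw with rfl | hw
    · exact hsT
    · rw [mem_singleton] at hw
      rw [hw]
      exact hs'T
  have hs'G : r (insert s' G) = 3 := by
    have h1 := rk_ins_ne hr (hnl s' hs'T)
    omega
  have hs'Z := mem_union.1 (mem_TK.1 hs'T).1
  have hsF : s ∉ F := (h.mem_SS.1 hs'.1).2.2
  by_cases hFG : F ⊆ G
  · -- the same tight set
    have hs'F : s' ∈ SS r E Z := by
      rcases hs'Z with h1 | h1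
      · exfalso
        exact hnl s' hs'T (by rw [insert_eq_of_mem (hFG (h.bFF.2 (Or.inr h1)).1)])
      · exact (mem_sdiff.1 h1).1
    have h1 := h.ind3 (X := {s, s'}) (insert_subset hs'.1 (singleton_subset_iff.2 hs'F))
      (by rw [card_pair hne.symm]; norm_num)
    rw [card_pair hne.symm] at h1
    have h2 := hr.mono ({s, s'} ∪ F) (G ∪ {s, s'}) (by
      rw [union_comm]
      exact union_subset_union_left hFG)
    rw [← hF] at h1
    omega
  · -- the second element of the pair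
    have hJG : ¬ JF ⊆ G := by
      intro hJG
      apply hFG
      have h1 : r (G ∪ F) = r G := by
        have hJF : JF ⊆ F := fun w hw => (h.bFF.2 (Or.inl hw)).1
        have h2 := rk_cup_congr hr hJF (by rw [h.rj, hFr]) G
        rw [union_eq_right.2 hJG, union_comm F G] at h2
        exact h2.symm
      intro w hw
      refine hz.fl w (hFE hw) ?_
      have h2 := hr.mono (insert w G) (G ∪ F) (insert_subset (mem_union_right _ hw) subset_union_left)
      have h3 := hr.mono G (insert w G) (subset_insert w G)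
      rw [← hG]
      omega
    obtain ⟨β, hβL, hβG⟩ : ∃ β ∈ L, β ∈ G := by
      by_contra hcon
      push Not at hcon
      have h1 : G \ ZL r E Z BF L ⊆ (G ∩ Z) ∪ {p} := by
        intro w hw
        have hw' := mem_sdiff.1 hw
        have h2 := hGE hw'.1
        rw [mem_union, mem_singleton, mem_inter]
        by_cases hwZ : w ∈ Z
        · exact Or.inl ⟨hw'.1, hwZ⟩
        · right
          have h3 : w ∉ BF ∧ ¬ (w ∈ SS r E Z ∧ w ∉ L) := by
            have h4 := hw'.2
            unfold ZL at h4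
            rw [mem_union, mem_sdiff] at h4
            exact ⟨fun h5 => h4 (Or.inl h5), fun h5 => h4 (Or.inr h5)⟩
          have h4 : w ∉ L := fun h5 => hcon w h5 hw'.1
          have h5 : w ∉ SS r E Z := fun h6 => h3.2 ⟨h6, h4⟩
          rw [h.mem_SS] at h5
          have h6 : w ∈ F := by
            by_contra h7
            exact h5 ⟨h2, hwZ, h7⟩
          have h7 : w ∈ JF := by
            rcases h.bFF.1 ⟨h6, hwZ⟩ with h8 | h8
            · exact h8
            · exact absurd h8 h3.1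
          by_contra hwp
          apply hJG
          have h8 : ({w, p} : Finset α) = JF := by
            refine eq_of_subset_of_card_le (insert_subset h7 (singleton_subset_iff.2 hpJ)) ?_
            rw [card_pair hwp, h.cj]
          rw [← h8]
          exact insert_subset hw'.1 (singleton_subset_iff.2 hp)
      have h2 := card_le_card h1
      have h3 := card_union_le (G ∩ Z) {p}
      rw [card_singleton] at h3
      have h4 := h.c1 hL
      have h5 := hz.cF
      rw [← hG] at h4 h5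
      omega
    have hpF : p ∈ F := (h.bFF.2 (Or.inl hpJ)).1
    have hp1 : r {p} = 1 := by
      rw [ind_sub hr (Y := JF) (by rw [h.rj, h.cj]) (singleton_subset_iff.2 hpJ), card_singleton]
    have hFG3 : r (F ∪ G) ≤ 3 := by
      have h1 := hr.submod F G
      have h2 := hr.mono {p} (F ∩ G) (singleton_subset_iff.2 (mem_inter.2 ⟨hpF, hp⟩))
      omega
    have hβS := hL.sub hβL
    have hsβ : s ≠ β := fun h' => hs'.2 (h' ▸ hβL)
    rcases hs'Z with h1 | h1
    · -- `s'` in the tight set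
      have hs'F : s' ∈ F := (h.bFF.2 (Or.inr h1)).1
      have h2 := hr.submod (F ∪ G) (G ∪ {s, s'})
      have h3 := hr.mono (insert s' G) ((F ∪ G) ∩ (G ∪ {s, s'})) (by
        intro w hw
        rcases mem_insert.1 hw with rfl | hw
        · exact mem_inter.2 ⟨mem_union_left _ hs'F, mem_union_right _ (by simp)⟩
        · exact mem_inter.2 ⟨mem_union_right _ hw, mem_union_left _ hw⟩)
      have h4 := hr.mono ({s, β} ∪ F) ((F ∪ G) ∪ (G ∪ {s, s'})) (by
        intro w hw
        simp only [mem_union, mem_insert, mem_singleton] at hw ⊢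
        rcases hw with (rfl | rfl) | hw
        · exact Or.inr (Or.inr (Or.inl rfl))
        · exact Or.inl (Or.inr hβG)
        · exact Or.inl (Or.inl hw))
      have h5 := h.ind3 (X := {s, β}) (insert_subset hs'.1 (singleton_subset_iff.2 hβS))
        (by rw [card_pair hsβ]; norm_num)
      rw [card_pair hsβ, ← hF] at h5
      omega
    · have hs'S := mem_sdiff.1 h1
      have hs'β : s' ≠ β := fun h' => hs'S.2 (h' ▸ hβL)
      have h2 := hr.submod (F ∪ G) (G ∪ {s, s'})
      have h3 := hr.mono G ((F ∪ G) ∩ (G ∪ {s, s'})) (by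
        intro w hw
        exact mem_inter.2 ⟨mem_union_right _ hw, mem_union_left _ hw⟩)
      have h4 := hr.mono ({s, s', β} ∪ F) ((F ∪ G) ∪ (G ∪ {s, s'})) (by
        intro w hw
        simp only [mem_union, mem_insert, mem_singleton] at hw ⊢
        rcases hw with (rfl | rfl | rfl) | hw
        · exact Or.inr (Or.inr (Or.inl rfl))
        · exact Or.inr (Or.inr (Or.inr rfl))
        · exact Or.inl (Or.inr hβG)
        · exact Or.inl (Or.inl hw))
      have hc : ({s, s', β} : Finset α).card = 3 := card_eq_three.2 ⟨s, s', β, hne.symm, hsβ, hs'β, rfl⟩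
      have h5 := h.ind3 (X := {s, s', β}) (insert_subset hs'.1 (insert_subset hs'S.1 (singleton_subset_iff.2 hβS)))
        (by omega)
      rw [hc, ← hF] at h5
      omega

/-- The tight set of `Z_L` contains `L` and two elements of `Z`. -/
theorem Cf.c3 (h : Cf r E Q Z JF BF x y) (hL : Bi (cr r E Z) (SS r E Z) x y L) :
    L ⊆ FF r r E (ZL r E Z BF L) ∧ (FF r r E (ZL r E Z BF L) ∩ Z).card = 2 := by
  have hz := h.zl6 hL
  have hd := Finset.disjoint_left.1 (h.c2 hL)
  have hc := h.c1 hL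
  set G : Finset α := FF r r E (ZL r E Z BF L) with hG
  have hGE : G ⊆ E := FF_sub
  have h1 : G \ ZL r E Z BF L ⊆ (G ∩ Z) ∪ (G ∩ L) := by
    intro w hw
    have hw' := mem_sdiff.1 hw
    have h2 := hGE hw'.1
    rw [mem_union, mem_inter, mem_inter]
    by_cases hwZ : w ∈ Z
    · exact Or.inl ⟨hw'.1, hwZ⟩
    · right
      refine ⟨hw'.1, ?_⟩
      by_contra hwL
      have h4 := hw'.2
      unfold ZL at h4
      rw [mem_union, mem_sdiff] at h4
      have h3 : w ∉ SS r E Z := fun h6 => h4 (Or.inr ⟨h6, hwL⟩)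
      rw [h.mem_SS] at h3
      have h6 : w ∈ FF r r E Z := by
        by_contra h7
        exact h3 ⟨h2, hwZ, h7⟩
      rcases h.bFF.1 ⟨h6, hwZ⟩ with h8 | h8
      · exact hd hw'.1 h8
      · exact h4 (Or.inl h8)
  have h2 := card_le_card h1
  have h3 := card_union_le (G ∩ Z) (G ∩ L)
  have h5 := hz.cF
  rw [← hG] at h5
  have h6 := card_le_card (inter_subset_right (s₁ := G) (s₂ := L))
  have h7 := hL.card
  have h8 : G ∩ L = L := eq_of_subset_of_card_le inter_subset_right (by omega)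
  exact ⟨inter_eq_right.1 h8, by omega⟩

theorem Cf.rkL (h : Cf r E Q Z JF BF x y) (hL : Bi (cr r E Z) (SS r E Z) x y L) : 2 ≤ r L := by
  have h1 := h.ind3 hL.sub (by rw [hL.card]; norm_num)
  have h2 := rk_le_add h.env.rk L (FF r r E Z)
  have h3 := h.z.rF
  have h4 := hL.card
  omega

/-- (C3) -/
theorem Cf.c4 (h : Cf r E Q Z JF BF x y) (hL : Bi (cr r E Z) (SS r E Z) x y L) {K : Finset α} {u v : α}
    (hK : r (FF r r E Z ∪ K) = 3) (hu : u ∈ K) (huF : r (insert u (FF r r E Z)) ≠ r (FF r r E Z))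
    (hv : v ∈ K) (hvL : cr r E Z (insert v L) = 3) : u ∉ FF r r E (ZL r E Z BF L) := by
  intro huG
  have hr := h.env.rk
  have hz := h.zl6 hL
  have hFr := h.z.rF
  have h1 := (h.c3 hL).1
  have h2 := h.rkL hL
  have h3 : r (insert u L) = r L := by
    have h4 := hr.mono (insert u L) _ (insert_subset huG h1)
    have h5 := hr.mono L (insert u L) (subset_insert u L)
    have h6 := hz.rF
    omega
  have h4 : r (insert u (L ∪ FF r r E Z)) = r (L ∪ FF r r E Z) := hr.mono_insert h3 subset_union_left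
  have h5 : r (insert v (insert u (FF r r E Z))) = r (insert u (FF r r E Z)) := by
    have h6 := rk_ins_ne hr huF
    have h7 := hr.mono (insert v (insert u (FF r r E Z))) (FF r r E Z ∪ K)
      (insert_subset (mem_union_right _ hv) (insert_subset (mem_union_right _ hu) subset_union_left))
    have h8 := hr.mono _ _ (subset_insert v (insert u (FF r r E Z)))
    omega
  have h6 : r (insert v (insert u (L ∪ FF r r E Z))) = r (insert u (L ∪ FF r r E Z)) :=
    hr.mono_insert h5 (insert_subset_insert u subset_union_right)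
  have h7 := hr.mono (insert v L ∪ FF r r E Z) (insert v (insert u (L ∪ FF r r E Z))) (by
    intro w hw
    simp only [mem_union, mem_insert] at hw ⊢
    tauto)
  have h8 := h.cr_eq (insert v L)
  have h9 := h.ind3 hL.sub (by rw [hL.card]; norm_num)
  rw [hL.card] at h9
  omega

/-- `x` is not on the line of a bichromatic pair. -/
theorem Bi.not_mem {ρ : Finset α → ℕ} {S : Finset α} (h : NA ρ S x y) (hL : Bi ρ S x y L) : ρ (insert x L) = 3 := by
  obtain ⟨s, hs, hR⟩ := hL.red
  have h1 := h.rk.insert_le s (insert x L)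
  rw [Finset.insert_comm] at h1
  have h2 := hR.r4
  have h3 := h.rk.insert_le x L
  have h4 := h.ind3 hL.sub (by rw [hL.card]; norm_num)
  have h5 := hL.card
  omega

/-- There is no configuration. -/
theorem Cf.false (h : Cf r E Q Z JF BF x y) (hJ : Rd (cr r E Z) (SS r E Z) x J) : False := by
  classical
  have hr := h.env.rk
  obtain ⟨P, hP4, hP⟩ := h.na.four hJ
  set A : Finset α := TK r E 6 Q Z with hA
  set B : Finset α := TK r E 6 (fun A => ¬ Q A) Z with hB
  have hAB : 4 ≤ (A ∪ B).card := h.four_tok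
  have hABZ : A ∪ B ⊆ Z := by
    intro w hw
    rcases mem_union.1 hw with hw | hw
    · exact (mem_TK.1 hw).1
    · exact (mem_TK.1 hw).1
  have hcW : (Z \ (A ∪ B)).card ≤ 3 := by
    have h1 := card_sdiff_add_card_eq_card hABZ
    have h2 := h.z.card
    omega
  have hmap : ∀ L ∈ P, FF r r E (ZL r E Z BF L) ∩ Z ∈ (Z \ (A ∪ B)).powersetCard 2 := by
    intro L hL
    have hBi := hP L hL
    rw [mem_powersetCard]
    refine ⟨?_, (h.c3 hBi).2⟩
    intro u hu
    have hu' := mem_inter.1 hu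
    refine mem_sdiff.2 ⟨hu'.2, ?_⟩
    intro huAB
    rcases mem_union.1 huAB with huA | huB
    · exact h.c4 hBi h.z.ra huA (h.z.na.nl u (mem_union_left _ huA)) h.hx (Bi.not_mem h.na hBi) hu'.1
    · exact h.c4 hBi h.z.rb huB (h.z.na.nl u (mem_union_right _ huB)) h.hy
        (Bi.not_mem h.na.symm hBi.symm) hu'.1
  have hinj : ∀ L ∈ P, ∀ L' ∈ P, FF r r E (ZL r E Z BF L) ∩ Z = FF r r E (ZL r E Z BF L') ∩ Z → L = L' := by
    intro L hL L' hL' he
    have b1 := hP L hL
    have b2 := hP L' hL'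
    by_contra hne
    set G := FF r r E (ZL r E Z BF L) with hG
    set G' := FF r r E (ZL r E Z BF L') with hG'
    have c1 := (h.c3 b1).2
    rw [← hG] at c1
    have c2 := h.indZ (X := G ∩ Z) inter_subset_right (by omega)
    have g1 : r G = 2 := (h.zl6 b1).rF
    have g2 : r G' = 2 := (h.zl6 b2).rF
    have g3 : r (G ∪ G') ≤ 2 := by
      have h1 := hr.submod G G'
      have h2 := hr.mono (G ∩ Z) (G ∩ G') (by
        intro w hw
        refine mem_inter.2 ⟨(mem_inter.1 hw).1, ?_⟩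
        rw [he] at hw
        exact (mem_inter.1 hw).1)
      omega
    have g4 := hr.mono (L ∪ L') (G ∪ G') (union_subset_union (h.c3 b1).1 (h.c3 b2).1)
    have g5 : 3 ≤ (L ∪ L').card := by
      by_contra hlt
      have h1 := card_le_card (subset_union_left (s₁ := L) (s₂ := L'))
      have h2 := b1.card
      have h3 := b2.card
      have h4 : L = L ∪ L' := eq_of_subset_of_card_le subset_union_left (by omega)
      have h5 : L' = L ∪ L' := eq_of_subset_of_card_le subset_union_right (by omega)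
      exact hne (h4.trans h5.symm)
    obtain ⟨X, hX, hXc⟩ := Finset.exists_subset_card_eq g5
    have g6 := h.ind3 (hX.trans (union_subset b1.sub b2.sub)) (by omega)
    have g7 := rk_le_add hr X (FF r r E Z)
    have g8 := hr.mono X (L ∪ L') hX
    have g9 := h.z.rF
    omega
  have h1 := card_le_card_of_injOn (fun L => FF r r E (ZL r E Z BF L) ∩ Z) hmap
    (fun L hL L' hL' he => hinj L hL L' hL' he)
  rw [card_powersetCard] at h1
  have h2 : (Z \ (A ∪ B)).card.choose 2 ≤ 3 := by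
    have h3 := Nat.choose_le_choose 2 hcW
    exact h3
  omega

end Pool.Agent.R6
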