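import Pool.Agent.EX84.NoCrit
import Pool.Agent.R6.C
import Pool.Agent.R6.K2

/-!
Rank six (note 3130 of MP_e6151a_ag): assembly.
-/

set_option autoImplicit false

namespace Pool.Agent.R6

open Finset Pool.Agent.DT3 Pool.Agent.CF98 Pool.Agent.WT59 Pool.Agent.WG59 Pool.Agent.EX59 Pool.Agent.SA65
  Pool.Agent.EX84

variable {α : Type*} [DecidableEq α] {r : Finset α → ℕ} {E Z Z' b b' A B : Finset α} {f : ℕ}
  {Q : Finset α → Prop}

/-- A set of `f + 1` elements with good bases of both colours. -/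
def BC (r : Finset α → ℕ) (E : Finset α) (f : ℕ) (Q : Finset α → Prop) (Z : Finset α) : Prop :=
  Z ⊆ E ∧ Z.card = f + 1 ∧ (∃ b, Gd r E f b ∧ b ⊆ Z ∧ Q b) ∧ ∃ b, Gd r E f b ∧ b ⊆ Z ∧ ¬ Q b

/-- In rank six no set of seven elements contains good bases of both colours. -/
theorem bc_six (hE : Env r E 6) (hQ : ∀ A A', Stp r E 6 A A' → Q A → Q A')
    (hI : ∀ Z, BC r E 6 Q Z → 2 ≤ r (FF r r E Z)) : ¬ BC r E 6 Q Z := by
  classical
  intro hZ
  have hr := hE.rk
  have hall : ∀ Z', BC r E 6 Q Z' → Z6 r E Q Z' := by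
    rintro Z' hZ'
    obtain ⟨h1, h2, ⟨b, h3, h4, h5⟩, ⟨b', h6, h7, h8⟩⟩ := hZ'
    exact z6 hE hQ h1 (by omega) h3 h4 h6 h7 h5 h8
      (hI Z' ⟨h1, h2, ⟨b, h3, h4, h5⟩, ⟨b', h6, h7, h8⟩⟩)
  have hz := hall Z hZ
  obtain ⟨x, hx⟩ := hz.na.n1
  obtain ⟨y, hy⟩ := hz.na.n2
  have hFr := hz.rF
  have hFE : FF r r E Z ⊆ E := FF_sub
  have hfE := hE.rank
  have hb := hZ.2.2.1
  obtain ⟨b, hbg, hbZ, -⟩ := hb
  have hok : Ok r r E Z := ok_sub (gd_ok hE hbg) hbZ
  -- split the tight set
  have hD : ∀ X ⊆ FF r r E Z \ Z, X.card ≤ r X + r X := by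
    intro X hX
    have h1 := hok X ((hX.trans sdiff_subset).trans hFE)
    have e1 : X \ Z = X := by
      rw [Finset.sdiff_eq_self_iff_disjoint, Finset.disjoint_left]
      intro z hz hz'
      exact (mem_sdiff.1 (hX hz)).2 hz'
    rwa [e1] at h1
  have hDr : r (FF r r E Z \ Z) = 2 := by
    have h1 := hD _ (Subset.refl _)
    have h2 := hr.mono (FF r r E Z \ Z) _ sdiff_subset
    have h3 := hz.cF
    omega
  obtain ⟨JF, hJF, c1, c2, c3, c4⟩ := split2 (Y := FF r r E Z \ Z) hr hr (by rw [hDr, hz.cF]) hD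
  rw [hDr] at c1 c2 c3 c4
  have hS7 : (SS r E Z).card = 7 := by
    have h1 := hz.na.card
    have h2 : (SS r E Z) = (E \ Z) \ FF r r E Z := rfl
    rw [← h2] at h1
    omega
  have hcr : RankFn (cr r E Z) := contr_rank hr (FF r r E Z)
  have hFm : ∀ X : Finset α, 2 ≤ r (X ∪ FF r r E Z) := by
    intro X
    have h1 := hr.mono _ _ (subset_union_right (s₁ := X) (s₂ := FF r r E Z))
    omega
  have hcre : ∀ X : Finset α, cr r E Z X = r (X ∪ FF r r E Z) - 2 := by
    intro X
    unfold cr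
    rw [hFr]
  have hSE : SS r E Z ⊆ E := sdiff_subset.trans sdiff_subset
  have hxE : x ∈ E := hz.sub (mem_TK.1 hx).1
  have hyE : y ∈ E := hz.sub (mem_TK.1 hy).1
  have hnc : ∀ A ⊆ SS r E Z, _ := fun A hA => nap_nocrit4 (A := A) hr hz.na (by rw [hfE, hFr]) hA
  have hle : ∀ X ⊆ E, cr r E Z X ≤ 4 := by
    intro X hX
    have h1 := hr.mono (X ∪ FF r r E Z) E (union_subset hX hFE)
    rw [hcre]
    omega
  have hna : NA (cr r E Z) (SS r E Z) x y := by
    refine ⟨hcr, hS7, ?_, ?_, ?_, ?_, ?_, ?_⟩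
    · intro X hX
      exact hle _ (insert_subset hxE (insert_subset hyE (hX.trans hSE)))
    · intro A hA hAc
      have h1 := (hnc A hA).2.1 hAc
      rw [hcre]
      omega
    · intro A hA hAc
      have h1 := (hnc A hA).2.2.2 (by omega)
      rw [hcre]
      omega
    · have h1 := rk_ins_ne hr (hz.na.nl x (mem_union_left _ hx))
      rw [hcre, ← insert_eq]
      omega
    · have h1 := rk_ins_ne hr (hz.na.nl y (mem_union_right _ hy))
      rw [hcre, ← insert_eq]
      omega
    · intro J hJ hJc hJ4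
      have hJr := (hnc J hJ).2.1 hJc
      have h1 : r ((SS r E Z \ J) ∪ FF r r E Z) = r E := by
        have h2 := hFm (SS r E Z \ J)
        rw [hcre] at hJ4
        omega
      rcases hz.na.na J hJ (by omega) h1 with h2 | h2
      · left
        have h3 := h2 x hx
        have h4 := hle _ (insert_subset hxE (hJ.trans hSE))
        have h5 := hcr.mono J _ (subset_insert x J)
        have h6 := hcre J
        have h7 := hcre (insert x J)
        rw [insert_union] at h7
        have h8 := hr.mono (insert x (J ∪ FF r r E Z)) E (insert_subset hxE (union_subset (hJ.trans hSE) hFE))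
        omega
      · right
        have h3 := h2 y hy
        have h4 := hle _ (insert_subset hyE (hJ.trans hSE))
        have h5 := hcr.mono J _ (subset_insert y J)
        have h6 := hcre J
        have h7 := hcre (insert y J)
        rw [insert_union] at h7
        have h8 := hr.mono (insert y (J ∪ FF r r E Z)) E (insert_subset hyE (union_subset (hJ.trans hSE) hFE))
        omega
  -- a red triple
  have hrig : Rig (cr r E Z) (SS r E Z) 4 := by
    refine ⟨by omega, ?_⟩
    intro A hA hAn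
    have h1 := hz.na.rig A hA hAn
    have h2 := hFm A
    rw [hcre]
    omega
  obtain ⟨J, hJ, hJx⟩ := hl_exists hcr hrig (x := x) hna.lx (by
    have h1 := hle _ (insert_subset hxE hSE)
    obtain ⟨A, hA, hAc⟩ := Finset.exists_subset_card_eq (show 5 ≤ (SS r E Z).card by omega)
    have h2 := hna.t5 A hA hAc
    have h3 := hcr.mono A _ (hA.trans (subset_insert x _))
    omega)
  have hRd : Rd (cr r E Z) (SS r E Z) x J := ⟨hJ.sub, by have := hJ.card; omega, hJ.co, hJx⟩
  refine Cf.false (BF := (FF r r E Z \ Z) \ JF) ⟨hE, hQ, hz, ?_, disjoint_sdiff, c1, c3, c2, c4, hx, hy, ?_, hna⟩ hRd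
  · exact union_sdiff_of_subset hJF
  · intro Z' h1 h2 h3 h4
    exact hall Z' ⟨h1, by omega, h3, h4⟩

/-- Strict systems of rank at most six are connected. -/
theorem sw_six (hE : Env r E f) (hf : f ≤ 6) (hQ : ∀ A A', Stp r E f A A' → Q A → Q A')
    (hI : ∀ Z, BC r E f Q Z → 2 ≤ r (FF r r E Z)) (hA : Gd r E f A) (hB : Gd r E f B) (qA : Q A) : Q B := by
  by_contra qB
  have hr := hE.rk
  have hgap : ∀ F M S K1 K2 : Finset α, NAP r E F M S K1 K2 → r F + 4 ≤ r M := by
    intro F M S K1 K2 hN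
    have h1 := EX54.nap_corank hr hN
    have h2 := tok_lt hr hN.n1 (fun x hx => hN.nl x (mem_union_left _ hx))
    have h3 := tok_lt hr hN.n2 (fun x hx => hN.nl x (mem_union_right _ hx))
    have h4 := hN.sk
    omega
  rcases na_of2 hE hQ hA hB qA qB with ⟨Z, h1, h2, h3, h4⟩ | ⟨F, M, S, K1, K2, hN, h2, h3⟩
  · have hBC : BC r E f Q Z := ⟨h1, h2, h3, h4⟩
    have h5 := hI Z hBC
    obtain ⟨b, g1, g2, g3⟩ := h3
    obtain ⟨b', g4, g5, g6⟩ := h4
    have h6 := hgap _ _ _ _ _ (napZ hE hQ h1 h2 g1 g2 g4 g5 g3 g6)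
    rw [hE.rank] at h6
    have h7 : f = 6 := by omega
    subst h7
    exact bc_six hE hQ hI hBC
  · have h4 := hgap _ _ _ _ _ hN
    omega

end Pool.Agent.R6
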