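import Pool.Agent.EX91.Fin
import Pool.Agent.R6.Main
import Pool.Agent.R6.I1

/-!
Rank six (note 3130 of MP_e6151a_ag): triples of bases with the same content are connected in every matroid of rank at most six.
-/

set_option autoImplicit false

namespace Pool.Agent.R6

open Finset Pool.Agent.DT3 Pool.Agent.CF98 Pool.Agent.WT59 Pool.Agent.EX91

/-- In every strict system of rank at most six all good bases are in one class. -/
theorem sw_rank6 {α : Type*} [DecidableEq α] {E : Finset α} {r : Finset α → ℕ} {f : ℕ} {Q : Finset α → Prop}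
    {A B : Finset α} (hE : Env r E f) (hs : Strict r E) (hf : f ≤ 6) (hQ : ∀ A A', Stp r E f A A' → Q A → Q A')
    (hA : Gd r E f A) (hB : Gd r E f B) (qA : Q A) : Q B := by
  refine sw_six hE hf hQ ?_ hA hB qA
  rintro Z ⟨h1, h2, ⟨b, h3, h4, h5⟩, ⟨b', h6, h7, h8⟩⟩
  exact two_le_ff hE hs hQ h1 h2 h3 h4 h6 h7 h5 h8

theorem swp6 {α : Type*} [DecidableEq α] :
    SWP (fun (E : Finset α) (r : Finset α → ℕ) => r E ≤ 6) := by
  intro E r f Q A B hE hs hP hQ hA hB qA
  exact sw_rank6 hE hs (by rw [← hE.rank]; exact hP) hQ hA hB qA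

theorem her6 {α : Type*} [DecidableEq α] : Her (fun (E : Finset α) (r : Finset α → ℕ) => r E ≤ 6) := by
  refine ⟨?_, ?_⟩
  · intro E r f X hE hX h
    exact (hE.rk.mono X E hX).trans h
  · intro E r f X hE hX h
    show r ((E \ X) ∪ X) - r X ≤ 6
    rw [sdiff_union_of_subset hX]
    have h' : r E ≤ 6 := h
    omega

theorem rkFn_le {α : Type*} {M : Matroid α} (h : M.eRank ≤ 6) (X : Finset α) : rkFn M X ≤ 6 := by
  unfold rkFn
  have h1 : M.eRk (X : Set α) ≤ ((6 : ℕ) : ℕ∞) := (M.eRk_le_eRank _).trans (by exact_mod_cast h)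
  exact ENat.toNat_le_of_le_natCast h1

/-- Triples of bases with the same content are connected in every matroid of rank at most six. -/
theorem tconn_rank6 {α : Type*} [DecidableEq α] {M : Matroid α} (h : M.eRank ≤ 6) : TConn M :=
  connP her6 swp6 M (fun _ => rkFn_le h _)

end Pool.Agent.R6
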