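import Pool.Agent.EX84.Dl

/-!
Rank six (note 3130 of MP_e6151a_ag), part (B): seven points in rank four, no three collinear and no five coplanar, and two
non-loops `x`, `y` which are not adjacent.  There are at least four bichromatic pairs.
-/

set_option autoImplicit false

namespace Pool.Agent.R6

open Finset Pool.Agent.DT3 Pool.Agent.CF98 Pool.Agent.WT59 Pool.Agent.EX84

variable {α : Type*} [DecidableEq α] {r : Finset α → ℕ} {S J L L' : Finset α} {x y j s t : α}

/-- Seven points of rank four in general position with two non-adjacent non-loops. -/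
structure NA (r : Finset α → ℕ) (S : Finset α) (x y : α) : Prop where
  rk : RankFn r
  c7 : S.card = 7
  r4 : ∀ X ⊆ S, r (insert x (insert y X)) ≤ 4
  t3 : ∀ A ⊆ S, A.card = 3 → r A = 3
  t5 : ∀ A ⊆ S, A.card = 5 → r A = 4
  lx : 0 < r {x}
  ly : 0 < r {y}
  na : ∀ J ⊆ S, J.card = 3 → r (S \ J) = 4 → r (insert x J) = 3 ∨ r (insert y J) = 3

theorem NA.symm (h : NA r S x y) : NA r S y x :=
  ⟨h.rk, h.c7, fun X hX => by rw [Finset.insert_comm]; exact h.r4 X hX, h.t3, h.t5, h.ly, h.lx,
    fun J a b c => (h.na J a b c).symm⟩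

/-- A good triple whose plane does not contain `x`. -/
structure Rd (r : Finset α → ℕ) (S : Finset α) (x : α) (J : Finset α) : Prop where
  sub : J ⊆ S
  card : J.card = 3
  co : r (S \ J) = 4
  r4 : r (insert x J) = 4

/-- A bichromatic pair. -/
structure Bi (r : Finset α → ℕ) (S : Finset α) (x y : α) (L : Finset α) : Prop where
  sub : L ⊆ S
  card : L.card = 2
  red : ∃ s ∈ S \ L, Rd r S x (insert s L)
  blue : ∃ t ∈ S \ L, Rd r S y (insert t L)

theorem Bi.symm (h : Bi r S x y L) : Bi r S y x L := ⟨h.sub, h.card, h.blue, h.red⟩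

theorem NA.ind3 (h : NA r S x y) {A : Finset α} (hA : A ⊆ S) (hc : A.card ≤ 3) : r A = A.card := by
  obtain ⟨B, hAB, hBS, hB⟩ := Finset.exists_subsuperset_card_eq hA hc (by rw [h.c7]; norm_num)
  exact ind_sub h.rk (by rw [h.t3 B hBS hB, hB]) hAB

theorem NA.card4 (h : NA r S x y) {A : Finset α} (hA : A ⊆ S) (hr : r A ≤ 3) : A.card ≤ 4 := by
  by_contra hc
  obtain ⟨B, hBA, hB⟩ := Finset.exists_subset_card_eq (show 5 ≤ A.card by omega)
  have h1 := h.t5 B (hBA.trans hA) hB
  have h2 := h.rk.mono B A hBA
  omega

theorem NA.blue3 (h : NA r S x y) (hJ : Rd r S x J) : r (insert y J) = 3 := by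
  rcases h.na J hJ.sub hJ.card hJ.co with h1 | h1
  · have := hJ.r4
    omega
  · exact h1

theorem NA.le4 (h : NA r S x y) {X : Finset α} (hX : X ⊆ insert x (insert y S)) : r X ≤ 4 :=
  (h.rk.mono _ _ hX).trans (h.r4 S (Subset.refl S))

/-- (B0): the elements of the circuit of `j` over the complement. -/
theorem NA.circ (h : NA r S x y) (hJ : Rd r S x J) (hj : j ∈ J) :
    3 ≤ (sp r (S \ J) j).card ∧ ∀ t ∈ sp r (S \ J) j, r (insert j ((S \ J).erase t)) = 4 := by
  have hk := h.rk
  have hc : (S \ J).card = 4 := by
    have h1 := card_sdiff_add_card_eq_card hJ.sub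
    have h2 := h.c7
    have h3 := hJ.card
    omega
  have hi : r (S \ J) = (S \ J).card := by rw [hJ.co, hc]
  have hjS : j ∉ S \ J := fun h' => (mem_sdiff.1 h').2 hj
  have hjin : insert j (S \ J) ⊆ insert x (insert y S) := by
    intro z hz
    rcases mem_insert.1 hz with rfl | hz
    · exact mem_insert_of_mem (mem_insert_of_mem (hJ.sub hj))
    · exact mem_insert_of_mem (mem_insert_of_mem (mem_sdiff.1 hz).1)
  have hspan : r (insert j (S \ J)) = r (S \ J) := by
    have h1 := h.le4 hjin
    have h2 := hk.mono _ _ (subset_insert j (S \ J))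
    have h3 := hJ.co
    omega
  have h1 := sp_span hk hi hjS hspan
  refine ⟨?_, ?_⟩
  · by_contra hlt
    have hsub : insert j (sp r (S \ J) j) ⊆ S :=
      insert_subset (hJ.sub hj) (sp_sub.trans sdiff_subset)
    have hjn : j ∉ sp r (S \ J) j := fun h' => hjS (sp_sub h')
    have e1 := h.ind3 hsub (by rw [card_insert_of_notMem hjn]; omega)
    have e2 := h.ind3 (A := sp r (S \ J) j) (sp_sub.trans sdiff_subset) (by omega)
    rw [card_insert_of_notMem hjn] at e1
    omega
  · intro t ht
    have h2 := mem_sp.1 ht
    have h3 := rk_ins_ne hk h2.2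
    have h4 := ind_sub hk hi (erase_subset t (S \ J))
    rw [card_erase_of_mem h2.1, hc] at h4
    omega

/-- (B1): a red triple in which `j` is needed to span `y` contains a bichromatic pair. -/
theorem NA.b1 (h : NA r S x y) (hJ : Rd r S x J) (hj : j ∈ J) (hy : r (insert y (J.erase j)) ≠ r (J.erase j)) :
    Bi r S x y (J.erase j) := by
  have hk := h.rk
  have hL : (J.erase j).card = 2 := by rw [card_erase_of_mem hj, hJ.card]
  have hLS : J.erase j ⊆ S := (erase_subset _ _).trans hJ.sub
  have hy3 : r (insert y (J.erase j)) = 3 := by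
    have h1 := rk_ins_ne hk hy
    have h2 := h.ind3 hLS (by omega)
    omega
  obtain ⟨hc3, hc4⟩ := h.circ hJ hj
  -- an element of the circuit outside the plane of `J`
  obtain ⟨t, ht, htJ⟩ : ∃ t ∈ sp r (S \ J) j, r (insert t J) = 4 := by
    by_contra hcon
    push Not at hcon
    have h1 : ∀ t ∈ sp r (S \ J) j, r (insert t J) = r J := by
      intro t ht
      have h2 := hcon t ht
      have h3 := h.ind3 hJ.sub (by rw [hJ.card])
      rw [hJ.card] at h3
      rcases hk.insert_eq t J with h4 | h4
      · exact h4
      · omega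
    have h2 := rk_union_eq hk h1
    have h3 := h.ind3 hJ.sub (by rw [hJ.card])
    rw [hJ.card] at h3
    have h4 := h.card4 (A := J ∪ sp r (S \ J) j) (union_subset hJ.sub (sp_sub.trans sdiff_subset)) (by omega)
    have h5 : Disjoint J (sp r (S \ J) j) := by
      rw [disjoint_left]
      intro z hz hz'
      exact (mem_sdiff.1 (sp_sub hz')).2 hz
    rw [card_union_of_disjoint h5, hJ.card] at h4
    omega
  have htS := mem_sdiff.1 (sp_sub ht)
  have htL : t ∉ J.erase j := fun h' => htS.2 (mem_of_mem_erase h')
  refine ⟨hLS, hL, ⟨j, mem_sdiff.2 ⟨hJ.sub hj, notMem_erase j J⟩, by rwa [insert_erase hj]⟩,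
    ⟨t, mem_sdiff.2 ⟨htS.1, htL⟩, ⟨insert_subset htS.1 hLS, by rw [card_insert_of_notMem htL, hL], ?_, ?_⟩⟩⟩
  · have e1 : S \ insert t (J.erase j) = insert j ((S \ J).erase t) := by
      ext z
      simp only [mem_sdiff, mem_insert, mem_erase]
      constructor
      · rintro ⟨h1, h2⟩
        by_cases hz : z = j
        · exact Or.inl hz
        · right
          refine ⟨fun h3 => h2 (Or.inl h3), h1, fun h3 => h2 (Or.inr ⟨hz, h3⟩)⟩
      · rintro (rfl | ⟨h1, h2, h3⟩)
        · refine ⟨hJ.sub hj, ?_⟩
          rintro (h4 | h4)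
          · exact htS.2 (h4 ▸ hj)
          · exact h4.1 rfl
        · refine ⟨h2, ?_⟩
          rintro (h4 | h4)
          · exact h1 h4
          · exact h3 h4.2
    rw [e1]
    exact hc4 t ht
  · -- `y` is not in the plane of `t` and the pair
    by_contra hne
    have h0 : r (insert y (insert t (J.erase j))) ≤ 4 :=
      h.le4 (by
        intro z hz
        rcases mem_insert.1 hz with rfl | hz
        · exact mem_insert_of_mem (mem_insert_self _ _)
        · refine mem_insert_of_mem (mem_insert_of_mem ?_)
          rcases mem_insert.1 hz with rfl | hz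
          · exact htS.1
          · exact hLS hz)
    have h1 : r (insert t (insert y (J.erase j))) = r (insert y (J.erase j)) := by
      have h2 := hk.mono _ _ (subset_insert t (insert y (J.erase j)))
      rw [Finset.insert_comm] at hne h0
      omega
    have h2 : r (insert t (insert y J)) = r (insert y J) :=
      hk.mono_insert h1 (insert_subset_insert y (erase_subset j J))
    have h3 := h.blue3 hJ
    have h4 := hk.mono (insert t J) (insert t (insert y J)) (insert_subset_insert t (subset_insert y J))
    omega

/-- (B3): a bichromatic pair has a red neighbour. -/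
theorem NA.nbr (h : NA r S x y) (hL : Bi r S x y L) : ∃ L', Bi r S x y L' ∧ L' ≠ L ∧ Rd r S x (L ∪ L') := by
  have hk := h.rk
  obtain ⟨s0, hs0, hR0⟩ := hL.red
  have hs0' := mem_sdiff.1 hs0
  -- `x` is not on the line
  have hrL : r L = 2 := by rw [h.ind3 hL.sub (by rw [hL.card]; norm_num), hL.card]
  have hxL : r (insert x L) = 3 := by
    have h1 := hk.insert_le s0 (insert x L)
    rw [Finset.insert_comm] at h1
    have h2 := hR0.r4
    have h3 := hk.insert_le x L
    omega
  have hyL : r (insert y L) = 3 := by
    obtain ⟨t0, ht0, hB0⟩ := hL.blue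
    have h1 := hk.insert_le t0 (insert y L)
    rw [Finset.insert_comm] at h1
    have h2 := hB0.r4
    have h3 := hk.insert_le y L
    omega
  obtain ⟨hc3, hc4⟩ := h.circ hR0 (mem_insert_self s0 L)
  set C : Finset α := insert s0 (sp r (S \ insert s0 L) s0) with hC
  have hCS : ∀ z ∈ C, z ∈ S ∧ z ∉ L := by
    intro z hz
    rcases mem_insert.1 hz with rfl | hz
    · exact hs0'
    · have h1 := mem_sdiff.1 (sp_sub hz)
      exact ⟨h1.1, fun h2 => h1.2 (mem_insert_of_mem h2)⟩
  have hCc : 4 ≤ C.card := by
    rw [hC, card_insert_of_notMem (fun h' => (mem_sdiff.1 (sp_sub h')).2 (mem_insert_self _ _))]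
    omega
  have hco : ∀ z ∈ C, r (S \ insert z L) = 4 := by
    intro z hz
    rcases mem_insert.1 hz with rfl | hz
    · exact hR0.co
    · have h1 := mem_sdiff.1 (sp_sub hz)
      have h2 := hc4 z hz
      have e1 : insert s0 ((S \ insert s0 L).erase z) = S \ insert z L := by
        ext w
        simp only [mem_sdiff, mem_insert, mem_erase]
        constructor
        · rintro (rfl | ⟨h3, h4, h5⟩)
          · refine ⟨hs0'.1, ?_⟩
            rintro (h4 | h4)
            · exact h1.2 (h4 ▸ mem_insert_self _ _)
            · exact hs0'.2 h4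
          · refine ⟨h4, ?_⟩
            rintro (h6 | h6)
            · exact h3 h6
            · exact h5 (Or.inr h6)
        · rintro ⟨h3, h4⟩
          by_cases hw : w = s0
          · exact Or.inl hw
          · right
            refine ⟨fun h5 => h4 (Or.inl h5), h3, ?_⟩
            rintro (h6 | h6)
            · exact hw h6
            · exact h4 (Or.inr h6)
      rw [← e1]
      exact h2
  -- the elements outside the plane of `x` and the line
  set D : Finset α := C.filter (fun z => r (insert x (insert z L)) = 4) with hD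
  have hDc : 2 ≤ D.card := by
    have h1 := card_filter_add_card_filter_not (s := C) (fun z => r (insert x (insert z L)) = 4)
    have h2 : ∀ z ∈ C.filter (fun z => ¬ r (insert x (insert z L)) = 4), r (insert z (insert x L)) = r (insert x L) := by
      intro z hz
      have h3 := mem_filter.1 hz
      rcases hk.insert_eq z (insert x L) with h4 | h4
      · exact h4
      · rw [Finset.insert_comm] at h4
        exact absurd (by omega) h3.2
    have h3 := rk_union_eq hk h2
    have h4 := hk.mono (L ∪ C.filter (fun z => ¬ r (insert x (insert z L)) = 4)) _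
      (union_subset_union_left (t := C.filter (fun z => ¬ r (insert x (insert z L)) = 4)) (subset_insert x L))
    have h5 := h.card4 (A := L ∪ C.filter (fun z => ¬ r (insert x (insert z L)) = 4))
      (union_subset hL.sub (fun z hz => (hCS z (mem_filter.1 hz).1).1)) (by omega)
    have h6 : Disjoint L (C.filter (fun z => ¬ r (insert x (insert z L)) = 4)) := by
      rw [disjoint_left]
      intro z hz hz'
      exact (hCS z (mem_filter.1 hz').1).2 hz
    rw [card_union_of_disjoint h6, hL.card] at h5
    have h7 : D.card = (C.filter (fun z => r (insert x (insert z L)) = 4)).card := rfl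
    omega
  -- one of them is not parallel to `y`
  obtain ⟨s, hs, hsy⟩ : ∃ s ∈ D, r {y, s} = 2 := by
    obtain ⟨a, ha, b, hb, hab⟩ := one_lt_card.1 (show 1 < D.card by omega)
    by_contra hcon
    push Not at hcon
    have haS := (hCS a (mem_filter.1 ha).1).1
    have hbS := (hCS b (mem_filter.1 hb).1).1
    have h1 : ∀ z ∈ S, r {y, z} ≠ 2 → r (insert z {y}) = r {y} := by
      intro z hz hne
      rcases hk.insert_eq z {y} with h2 | h2
      · exact h2
      · exfalso
        apply hne
        have h3 := hk.le_card {y}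
        rw [card_singleton] at h3
        have h4 := h.ly
        rw [pair_comm] at h2
        have : r {y} = 1 := by omega
        omega
    have h2 := h1 a haS (hcon a ha)
    have h3 := h1 b hbS (hcon b hb)
    have h4 := rk_union_eq hk (X := {y}) (S := {a, b}) (by
      intro z hz
      rcases mem_insert.1 hz with rfl | hz
      · exact h2
      · rw [mem_singleton] at hz
        rw [hz]
        exact h3)
    have h5 := hk.mono {a, b} ({y} ∪ {a, b}) subset_union_right
    have h6 := h.ind3 (A := {a, b}) (insert_subset haS (singleton_subset_iff.2 hbS)) (by rw [card_pair hab]; norm_num)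
    rw [card_pair hab] at h6
    have h7 := hk.le_card {y}
    rw [card_singleton] at h7
    omega
  have hs' := mem_filter.1 hs
  have hsS := hCS s hs'.1
  have hR : Rd r S x (insert s L) :=
    ⟨insert_subset hsS.1 hL.sub, by rw [card_insert_of_notMem hsS.2, hL.card], hco s hs'.1, hs'.2⟩
  have hy3 := h.blue3 hR
  -- an element of the line which is needed to span `y`
  obtain ⟨l, hl, hln⟩ : ∃ l ∈ L, r (insert y ((insert s L).erase l)) ≠ r ((insert s L).erase l) := by
    by_contra hcon
    push Not at hcon
    have hi : r (insert s L) = (insert s L).card := h.ind3 hR.sub (by rw [hR.card])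
    have hyn : y ∉ insert s L := by
      intro hy
      rcases mem_insert.1 hy with rfl | hy
      · rw [pair_eq_singleton] at hsy
        have h3 := hk.le_card {y}
        rw [card_singleton] at h3
        omega
      · rw [insert_eq_of_mem hy] at hyL
        omega
    have h1 := ins_inter hk (B := insert s L) (W := L) (p := y) hi hyn (subset_insert s L)
      (by rw [hy3, h.ind3 hR.sub (by rw [hR.card]), hR.card]) hcon
    have e1 : insert s L \ L = {s} := by
      ext z
      simp only [mem_sdiff, mem_insert, mem_singleton]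
      constructor
      · rintro ⟨h2 | h2, h3⟩
        · exact h2
        · exact absurd h2 h3
      · rintro rfl
        exact ⟨Or.inl rfl, hsS.2⟩
    rw [e1] at h1
    have h2 := hk.le_card {s}
    rw [card_singleton] at h2
    omega
  refine ⟨(insert s L).erase l, h.b1 hR (mem_insert_of_mem hl) hln, ?_, ?_⟩
  · intro he
    have h1 : l ∈ L := hl
    rw [← he] at h1
    exact notMem_erase l _ h1
  · have e1 : L ∪ (insert s L).erase l = insert s L := by
      ext z
      simp only [mem_union, mem_insert, mem_erase]
      constructor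
      · rintro (h1 | ⟨_, h2⟩)
        · exact Or.inr h1
        · exact h2
      · rintro (rfl | h1)
        · exact Or.inr ⟨fun h2 => hsS.2 (h2 ▸ hl), Or.inl rfl⟩
        · exact Or.inl h1
    rw [e1]
    exact hR

/-- (B4): there are at least four bichromatic pairs, as soon as there is a red triple. -/
theorem NA.four (h : NA r S x y) (hJ : Rd r S x J) :
    ∃ P : Finset (Finset α), 4 ≤ P.card ∧ ∀ L ∈ P, Bi r S x y L := by
  classical
  have hk := h.rk
  set P : Finset (Finset α) := S.powerset.filter (fun L => Bi r S x y L) with hP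
  have hmem : ∀ L, L ∈ P ↔ Bi r S x y L := by
    intro L
    rw [hP, mem_filter, mem_powerset]
    exact ⟨fun h1 => h1.2, fun h1 => ⟨h1.sub, h1⟩⟩
  refine ⟨P, ?_, fun L hL => (hmem L).1 hL⟩
  -- a bichromatic pair
  obtain ⟨L0, hL0⟩ : ∃ L0, Bi r S x y L0 := by
    have hi : r J = J.card := h.ind3 hJ.sub (by rw [hJ.card])
    have hy3 := h.blue3 hJ
    by_cases hyJ : y ∈ J
    · refine ⟨_, h.b1 hJ hyJ ?_⟩
      rw [insert_erase hyJ]
      have h1 := ind_sub hk hi (erase_subset y J)
      rw [card_erase_of_mem hyJ, hJ.card] at h1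
      rw [h1, hi, hJ.card]
      norm_num
    · by_contra hcon
      push Not at hcon
      have h1 : ∀ j ∈ J, r (insert y (J.erase j)) = r (J.erase j) := by
        intro j hj
        by_contra hne
        exact hcon _ (h.b1 hJ hj hne)
      have h2 := ins_inter hk (B := J) (W := J) (p := y) hi hyJ (Subset.refl J)
        (by rw [hy3, hi, hJ.card]) h1
      rw [sdiff_self, bot_eq_empty, hk.empty] at h2
      have h3 := h.ly
      simp only [insert_empty_eq] at h2
      omega
  obtain ⟨L1, hL1, n1, r1⟩ := h.nbr hL0
  obtain ⟨L2, hL2, n2, r2⟩ := h.symm.nbr hL0.symm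
  have hno : ∀ J, Rd r S x J → Rd r S y J → False := by
    intro J h1 h2
    have h3 := h.blue3 h1
    have h4 := h2.r4
    omega
  have n12 : L1 ≠ L2 := by
    rintro rfl
    exact hno _ r1 r2
  by_contra hlt
  have h3 : ({L0, L1, L2} : Finset (Finset α)).card = 3 := card_eq_three.2 ⟨L0, L1, L2, n1.symm, n2.symm, n12, rfl⟩
  have h4 : ({L0, L1, L2} : Finset (Finset α)) ⊆ P := by
    intro L hL
    simp only [mem_insert, mem_singleton] at hL
    rcases hL with rfl | rfl | rfl
    · exact (hmem _).2 hL0
    · exact (hmem _).2 hL1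
    · exact (hmem _).2 hL2.symm
  have h5 := eq_of_subset_of_card_le h4 (by omega)
  have hin : ∀ L, Bi r S x y L → L = L0 ∨ L = L1 ∨ L = L2 := by
    intro L hL
    have h6 := (hmem L).2 hL
    rw [← h5] at h6
    simpa only [mem_insert, mem_singleton] using h6
  -- the blue neighbour of `L1` is `L2`
  obtain ⟨L3, hL3, n3, r3⟩ := h.symm.nbr hL1.symm
  obtain ⟨L4, hL4, n4, r4⟩ := h.nbr hL2.symm
  have e3 : L3 = L2 := by
    rcases hin L3 hL3.symm with h6 | h6 | h6
    · exfalso
      rw [h6, union_comm] at r3
      exact hno _ r1 r3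
    · exact absurd h6 n3
    · exact h6
  have e4 : L4 = L1 := by
    rcases hin L4 hL4 with h6 | h6 | h6
    · exfalso
      rw [h6, union_comm] at r4
      exact hno _ r4 r2
    · exact h6
    · exact absurd h6 n4
  rw [e3] at r3
  rw [e4, union_comm] at r4
  exact hno _ r4 r3

end Pool.Agent.R6
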