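import Pool.Agent.CF98.Rk0

/-!
Note 2486 of MP_e6151a_ag: the largest tight flat of a set with good bases of both colours is not a double point; combinatorial part.

`DP r E Z a a' K1 K2 P N` : the configuration; `a`, `a'` are parallel and outside `Z`, `K1 ∪ K2` is the circuit of `Z`, `K1 + a` and `K2 + a`
are circuits, `P x` is the largest tight set of `Z + a - x`, `N x` spans `a` together with `P x` and there are no `g ∈ K1`, `h ∈ K2` with
`h ∈ N g` and `g ∈ N h`.  `DP.false` : this is impossible.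
-/

set_option autoImplicit false

namespace Pool.Agent.R6

open Finset Pool.Agent.DT3 Pool.Agent.CF98

variable {α : Type*} [DecidableEq α] {r : Finset α → ℕ} {E Z K1 K2 S T D : Finset α} {a a' x y : α} {P N : α → Finset α}

/-- The configuration over a double point `a`, `a'`. -/
structure DP (r : Finset α → ℕ) (E Z : Finset α) (a a' : α) (K1 K2 : Finset α) (P N : α → Finset α) : Prop where
  rk : RankFn r
  ZE : Z ⊆ E
  aE : a ∈ E
  aE' : a' ∈ E
  ne : a ≠ a'
  aZ : a ∉ Z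
  aZ' : a' ∉ Z
  aa : r {a, a'} = 1
  a1 : r {a} = 1
  a1' : r {a'} = 1
  ok : ∀ X ⊆ E, (X \ Z).card ≤ 2 * r X
  ti : ∀ X ⊆ E, (X \ Z).card = 2 * r X → X ⊆ {a, a'}
  s1 : K1 ⊆ Z
  s2 : K2 ⊆ Z
  dj : Disjoint K1 K2
  ind : ∀ S, S ⊆ K1 ∪ K2 → S ≠ K1 ∪ K2 → r S = S.card
  cc : r (K1 ∪ K2) + 1 = (K1 ∪ K2).card
  q1 : r (insert a K1) = K1.card
  q2 : r (insert a K2) = K2.card
  m1 : ∀ S, S ⊆ K1 → S ≠ K1 → r (insert a S) = S.card + 1
  m2 : ∀ S, S ⊆ K2 → S ≠ K2 → r (insert a S) = S.card + 1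
  PE : ∀ x ∈ K1 ∪ K2, P x ⊆ E
  Pt : ∀ x ∈ K1 ∪ K2, (P x \ (insert a Z).erase x).card = 2 * r (P x)
  Pk : ∀ x ∈ K1 ∪ K2, ∀ X ⊆ E, (X \ (insert a Z).erase x).card ≤ 2 * r X
  Pm : ∀ x ∈ K1 ∪ K2, ∀ X ⊆ E, (X \ (insert a Z).erase x).card = 2 * r X → X ⊆ P x
  Pa : ∀ x ∈ K1 ∪ K2, a ∉ P x
  N1 : ∀ x ∈ K1, N x ⊆ K2 \ P x ∧ r (insert a (P x ∪ N x)) = r (P x ∪ N x)
  N2 : ∀ x ∈ K2, N x ⊆ K1 \ P x ∧ r (insert a (P x ∪ N x)) = r (P x ∪ N x)
  nc : ∀ g ∈ K1, ∀ h ∈ K2, h ∈ N g → g ∈ N h → False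
  r1 : K1.Nonempty
  r2 : K2.Nonempty

theorem DP.swap (h : DP r E Z a a' K1 K2 P N) : DP r E Z a a' K2 K1 P N where
  rk := h.rk
  ZE := h.ZE
  aE := h.aE
  aE' := h.aE'
  ne := h.ne
  aZ := h.aZ
  aZ' := h.aZ'
  aa := h.aa
  a1 := h.a1
  a1' := h.a1'
  ok := h.ok
  ti := h.ti
  s1 := h.s2
  s2 := h.s1
  dj := h.dj.symm
  ind := by rw [union_comm]; exact h.ind
  cc := by rw [union_comm]; exact h.cc
  q1 := h.q2
  q2 := h.q1
  m1 := h.m2
  m2 := h.m1
  PE := by rw [union_comm]; exact h.PE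
  Pt := by rw [union_comm]; exact h.Pt
  Pk := by rw [union_comm]; exact h.Pk
  Pm := by rw [union_comm]; exact h.Pm
  Pa := by rw [union_comm]; exact h.Pa
  N1 := h.N2
  N2 := h.N1
  nc := fun g hg k hk h1 h2 => h.nc k hk g hg h2 h1
  r1 := h.r2
  r2 := h.r1

theorem DP.CZ (h : DP r E Z a a' K1 K2 P N) (hx : x ∈ K1 ∪ K2) : x ∈ Z := by
  rcases mem_union.1 hx with h1 | h1
  · exact h.s1 h1
  · exact h.s2 h1

theorem DP.xa (h : DP r E Z a a' K1 K2 P N) (hx : x ∈ K1 ∪ K2) : a ≠ x := fun e => h.aZ (e ▸ h.CZ hx)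

/-- `a` is not in the closure of `P x`. -/
theorem DP.acl (h : DP r E Z a a' K1 K2 P N) (hx : x ∈ K1 ∪ K2) : r (insert a (P x)) = r (P x) + 1 := by
  refine rk_ins_ne h.rk fun h0 => ?_
  have h1 : insert a (P x) ⊆ P x := by
    refine h.Pm x hx _ (insert_subset h.aE (h.PE x hx)) ?_
    rw [insert_sdiff_of_mem _ (mem_erase.2 ⟨h.xa hx, mem_insert_self a Z⟩), h0]
    exact h.Pt x hx
  exact h.Pa x hx (h1 (mem_insert_self a _))

theorem DP.Pa' (h : DP r E Z a a' K1 K2 P N) (hx : x ∈ K1 ∪ K2) : a' ∉ P x := by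
  intro h0
  have h1 : r (insert a {a'}) = r {a'} := by
    rw [h.a1']
    exact h.aa
  have h2 := h.rk.mono_insert h1 (singleton_subset_iff.2 h0)
  have h3 := h.acl hx
  omega

theorem DP.xP (h : DP r E Z a a' K1 K2 P N) (hx : x ∈ K1 ∪ K2) (hn : (P x).Nonempty) : x ∈ P x := by
  by_contra hxP
  have h1 : P x \ (insert a Z).erase x = P x \ Z := by
    ext z
    rw [mem_sdiff, mem_sdiff, mem_erase, mem_insert]
    constructor
    · rintro ⟨h1, h2⟩
      exact ⟨h1, fun h3 => h2 ⟨fun e => hxP (e ▸ h1), Or.inr h3⟩⟩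
    · rintro ⟨h1, h2⟩
      refine ⟨h1, ?_⟩
      rintro ⟨-, h3 | h3⟩
      · exact h.Pa x hx (h3 ▸ h1)
      · exact h2 h3
  have h2 := h.Pt x hx
  rw [h1] at h2
  obtain ⟨z, hz⟩ := hn
  have h3 := h.ti _ (h.PE x hx) h2 hz
  rw [mem_insert, mem_singleton] at h3
  rcases h3 with h3 | h3
  · exact h.Pa x hx (h3 ▸ hz)
  · exact h.Pa' hx (h3 ▸ hz)

theorem DP.card_er (h : DP r E Z a a' K1 K2 P N) (hx : x ∈ K1 ∪ K2) {X : Finset α} (hX : x ∈ X) :
    (X \ (insert a Z).erase x).card = (X \ insert a Z).card + 1 := by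
  have h1 : X \ (insert a Z).erase x = insert x (X \ insert a Z) := by
    ext z
    rw [mem_sdiff, mem_erase, mem_insert (a := z) (b := x), mem_sdiff]
    constructor
    · rintro ⟨h1, h2⟩
      by_cases hzx : z = x
      · exact Or.inl hzx
      · exact Or.inr ⟨h1, fun h3 => h2 ⟨hzx, h3⟩⟩
    · rintro (h1 | ⟨h1, h2⟩)
      · exact ⟨h1 ▸ hX, fun h2 => h2.1 h1⟩
      · exact ⟨h1, fun h3 => h2 h3.2⟩
  rw [h1, card_insert_of_notMem]
  intro h2
  exact (mem_sdiff.1 h2).2 (mem_insert_of_mem (h.CZ hx))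

theorem DP.sg (h : DP r E Z a a' K1 K2 P N) (hx : x ∈ K1 ∪ K2) (hn : (P x).Nonempty) :
    (P x \ insert a Z).card + 1 = 2 * r (P x) := by
  rw [← h.card_er hx (h.xP hx hn)]
  exact h.Pt x hx

theorem DP.eqP (h : DP r E Z a a' K1 K2 P N) (hx : x ∈ K1 ∪ K2) (hy : y ∈ K1 ∪ K2) (hyx : y ∈ P x) : P y = P x := by
  have h1 := h.sg hx ⟨y, hyx⟩
  have h2 : P x ⊆ P y := h.Pm y hy _ (h.PE x hx) (by rw [h.card_er hy hyx]; exact h1)
  have h3 := h.xP hx ⟨y, hyx⟩
  have h4 := h.sg hy ⟨y, h2 hyx⟩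
  exact Subset.antisymm (h.Pm x hx _ (h.PE y hy) (by rw [h.card_er hx (h2 h3)]; exact h4)) h2

theorem DP.djP (h : DP r E Z a a' K1 K2 P N) (hx : x ∈ K1 ∪ K2) (hy : y ∈ K1 ∪ K2) (hnx : (P x).Nonempty)
    (hny : (P y).Nonempty) (hne : P x ≠ P y) : Disjoint (P x) (P y) := by
  have hxP := h.xP hx hnx
  have hyP := h.xP hy hny
  have s1 := h.sg hx hnx
  have s2 := h.sg hy hny
  have hUE : P x ∪ P y ⊆ E := union_subset (h.PE x hx) (h.PE y hy)
  have hsm := h.rk.submod (P x) (P y)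
  have hcd := card_union_add_card_inter (P x \ insert a Z) (P y \ insert a Z)
  rw [← union_sdiff_distrib] at hcd
  have e1 : P x \ insert a Z ∩ (P y \ insert a Z) = (P x ∩ P y) \ insert a Z := by
    ext z
    simp only [mem_inter, mem_sdiff]
    tauto
  rw [e1] at hcd
  have hbig : ((P x ∪ P y) \ insert a Z).card + 2 ≤ 2 * r (P x ∪ P y) := by
    by_contra hlt
    have k1 := h.Pk x hx _ hUE
    have k2 := h.Pk y hy _ hUE
    have c1 := h.card_er hx (mem_union_left (P y) hxP)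
    have c2 := h.card_er hy (mem_union_right (P x) hyP)
    have l1 : P x ∪ P y ⊆ P x := h.Pm x hx _ hUE (by omega)
    have l2 : P x ∪ P y ⊆ P y := h.Pm y hy _ hUE (by omega)
    exact hne (Subset.antisymm (subset_union_left.trans l2) (subset_union_right.trans l1))
  have hIE : P x ∩ P y ⊆ E := inter_subset_left.trans (h.PE x hx)
  have e2 : (P x ∩ P y) \ insert a Z = (P x ∩ P y) \ Z := by
    ext z
    simp only [mem_inter, mem_sdiff, mem_insert, not_or]
    constructor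
    · rintro ⟨h1, h2, h3⟩
      exact ⟨h1, h3⟩
    · rintro ⟨h1, h3⟩
      exact ⟨h1, fun e => h.Pa x hx (e ▸ h1.1), h3⟩
  rw [e2] at hcd
  have h1 := h.ok _ hIE
  have h2 := h.ti _ hIE (by omega)
  rw [disjoint_left]
  intro z hz hz'
  have h3 := h2 (mem_inter.2 ⟨hz, hz'⟩)
  rw [mem_insert, mem_singleton] at h3
  rcases h3 with h3 | h3
  · exact h.Pa x hx (h3 ▸ hz)
  · exact h.Pa' hx (h3 ▸ hz)

/-- Submodularity over a family. -/
theorem sub_fam (h : RankFn r) (U : Finset α) (TT : Finset (Finset α)) :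
    (r (U ∪ TT.biUnion id) : ℤ) ≤ r U + ∑ T ∈ TT, ((r (U ∪ T) : ℤ) - r U) := by
  classical
  induction TT using Finset.induction_on with
  | empty => simp
  | insert T TT hT ih =>
    rw [sum_insert hT, biUnion_insert]
    have h2 := h.submod (U ∪ TT.biUnion id) (U ∪ T)
    have h3 := h.mono U ((U ∪ TT.biUnion id) ∩ (U ∪ T)) (subset_inter subset_union_left subset_union_left)
    have h4 : U ∪ (id T ∪ TT.biUnion id) = (U ∪ TT.biUnion id) ∪ (U ∪ T) := by
      ext z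
      simp only [mem_union, id]
      tauto
    rw [h4]
    omega

/-- The count (*). -/
theorem DP.count (h : DP r E Z a a' K1 K2 P N) (hD : D ⊆ K1 ∪ K2) (hne : ∀ x ∈ D, (P x).Nonempty) :
    2 * ∑ T ∈ D.image P, (((insert a D \ T).card : ℤ) - (r (insert a D ∪ T) - r T)) ≤
      (D.image P).card + 2 * ((D.image P).card - 1) * (((insert a D).card : ℤ) - r (insert a D)) := by
  classical
  have hr := h.rk
  set TT : Finset (Finset α) := D.image P with hTT
  set U : Finset α := insert a D with hU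
  have hT : ∀ T ∈ TT, ∃ x ∈ D, P x = T := fun T hT => mem_image.1 hT
  have haT : ∀ T ∈ TT, a ∉ T := by
    intro T hT'
    obtain ⟨x, hx, rfl⟩ := hT T hT'
    exact h.Pa x (hD hx)
  have haT' : ∀ T ∈ TT, a' ∉ T := by
    intro T hT'
    obtain ⟨x, hx, rfl⟩ := hT T hT'
    exact h.Pa' (hD hx)
  have haD : a ∉ D := fun h1 => h.aZ (h.CZ (hD h1))
  have hTE : ∀ T ∈ TT, T ⊆ E := by
    intro T hT'
    obtain ⟨x, hx, rfl⟩ := hT T hT'
    exact h.PE x (hD hx)
  have hsg : ∀ T ∈ TT, (T \ insert a Z).card + 1 = 2 * r T := by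
    intro T hT'
    obtain ⟨x, hx, rfl⟩ := hT T hT'
    exact h.sg (hD hx) (hne x hx)
  have hdj : ∀ T ∈ TT, ∀ T' ∈ TT, T ≠ T' → Disjoint T T' := by
    intro T hT1 T' hT2 hn
    obtain ⟨x, hx, rfl⟩ := hT T hT1
    obtain ⟨y, hy, rfl⟩ := hT T' hT2
    exact h.djP (hD hx) (hD hy) (hne x hx) (hne y hy) hn
  -- the part of `D`
  have hc1 : ∑ T ∈ TT, (D ∩ T).card = D.card := by
    rw [← card_biUnion]
    · congr 1
      ext z
      rw [mem_biUnion]
      constructor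
      · rintro ⟨T, -, h1⟩
        exact (mem_inter.1 h1).1
      · intro hz
        exact ⟨P z, mem_image_of_mem P hz, mem_inter.2 ⟨hz, h.xP (hD hz) (hne z hz)⟩⟩
    · intro T hT1 T' hT2 hn
      exact (hdj T hT1 T' hT2 hn).mono inter_subset_right inter_subset_right
  -- the part outside `W`
  set V : Finset α := TT.biUnion fun T => T \ insert a Z with hV
  have hc2 : V.card = ∑ T ∈ TT, (T \ insert a Z).card := by
    rw [hV, card_biUnion]
    intro T hT1 T' hT2 hn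
    exact (hdj T hT1 T' hT2 hn).mono sdiff_subset sdiff_subset
  have hVm : ∀ z ∈ V, ∃ T ∈ TT, z ∈ T ∧ z ∉ insert a Z := by
    intro z hz
    obtain ⟨T, hT1, hz'⟩ := mem_biUnion.1 hz
    exact ⟨T, hT1, mem_sdiff.1 hz'⟩
  have haV : a ∉ V := fun h1 => by
    obtain ⟨T, -, -, h2⟩ := hVm a h1
    exact h2 (mem_insert_self a Z)
  have haV' : a' ∉ V := fun h1 => by
    obtain ⟨T, hT1, h2, -⟩ := hVm a' h1
    exact haT' T hT1 h2
  set X : Finset α := insert a' (U ∪ TT.biUnion id) with hX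
  have hUE : U ⊆ E := insert_subset h.aE fun z hz => h.ZE (h.CZ (hD hz))
  have hXE : X ⊆ E := by
    refine insert_subset h.aE' (union_subset hUE ?_)
    intro z hz
    obtain ⟨T, hT1, hz'⟩ := mem_biUnion.1 hz
    exact hTE T hT1 hz'
  have hXr : r X = r (U ∪ TT.biUnion id) := by
    have h1 : r (insert a' {a}) = r {a} := by
      rw [h.a1, pair_comm]
      exact h.aa
    exact hr.mono_insert h1 (singleton_subset_iff.2 (mem_union_left _ (mem_insert_self a D)))
  have hsub : insert a (insert a' V) ⊆ X \ Z := by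
    intro z hz
    rw [mem_insert, mem_insert] at hz
    rcases hz with hz | hz | hz
    · rw [hz]
      exact mem_sdiff.2 ⟨mem_insert_of_mem (mem_union_left _ (mem_insert_self a D)), h.aZ⟩
    · rw [hz]
      exact mem_sdiff.2 ⟨mem_insert_self _ _, h.aZ'⟩
    · obtain ⟨T, hT1, h2, h3⟩ := hVm z hz
      exact mem_sdiff.2 ⟨mem_insert_of_mem (mem_union_right _ (mem_biUnion.2 ⟨T, hT1, h2⟩)),
        fun h4 => h3 (mem_insert_of_mem h4)⟩
  have hcX := card_le_card hsub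
  rw [card_insert_of_notMem (by
    rw [mem_insert, not_or]
    exact ⟨h.ne, haV⟩), card_insert_of_notMem haV'] at hcX
  have hokX := h.ok X hXE
  rw [hXr] at hokX
  have hfam := sub_fam hr U TT
  have hVz : (V.card : ℤ) = ∑ T ∈ TT, (2 * (r T : ℤ) - 1) := by
    rw [hc2]
    push_cast
    refine sum_congr rfl fun T hT1 => ?_
    have := hsg T hT1
    omega
  have hUc : U.card = D.card + 1 := card_insert_of_notMem haD
  have hUT : ∀ T ∈ TT, ((U \ T).card : ℤ) = D.card + 1 - (D ∩ T).card := by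
    intro T hT1
    have e1 : U \ T = insert a (D \ T) := by
      rw [hU, insert_sdiff_of_notMem _ (haT T hT1)]
    have e2 : a ∉ D \ T := fun h1 => haD (mem_sdiff.1 h1).1
    have e3 := card_sdiff_add_card_inter D T
    rw [e1, card_insert_of_notMem e2]
    omega
  have hc1' : ∑ T ∈ TT, ((D ∩ T).card : ℤ) = D.card := by exact_mod_cast hc1
  have hsum : ∑ T ∈ TT, (((U \ T).card : ℤ) - (r (U ∪ T) - r T)) =
      TT.card * ((D.card : ℤ) + 1) - D.card - ∑ T ∈ TT, ((r (U ∪ T) : ℤ) - r U) - TT.card * r U + ∑ T ∈ TT, (r T : ℤ) := by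
    have e1 : ∑ T ∈ TT, (((U \ T).card : ℤ) - (r (U ∪ T) - r T)) =
        ∑ T ∈ TT, ((((D.card : ℤ) + 1) - (D ∩ T).card) - ((r (U ∪ T) : ℤ) - r U) - r U + r T) := by
      refine sum_congr rfl fun T hT1 => ?_
      rw [hUT T hT1]
      ring
    rw [e1, sum_add_distrib, sum_sub_distrib, sum_sub_distrib, sum_sub_distrib, sum_const, sum_const, hc1']
    simp only [nsmul_eq_mul]
  rw [hsum]
  have h5 : ∑ T ∈ TT, (2 * (r T : ℤ) - 1) = 2 * ∑ T ∈ TT, (r T : ℤ) - TT.card := by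
    rw [sum_sub_distrib, ← mul_sum, sum_const]
    simp
  rw [h5] at hVz
  have h6 : ((TT.card : ℤ) - 1) * ((U.card : ℤ) - r U) = TT.card * ((D.card : ℤ) + 1) - TT.card * r U - (D.card + 1) + r U := by
    rw [hUc]
    push_cast
    ring
  have h7 : 2 * ((TT.card : ℤ) - 1) * ((U.card : ℤ) - r U) = 2 * (((TT.card : ℤ) - 1) * ((U.card : ℤ) - r U)) := by ring
  rw [h7, h6]
  have h8 : (V.card : ℤ) + 2 ≤ 2 * r (U ∪ TT.biUnion id) := by
    have : V.card + 1 + 1 ≤ 2 * r (U ∪ TT.biUnion id) := hcX.trans hokX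
    omega
  linarith

/-- The circuit property of `K2 + a` over a set. -/
theorem DP.full (h : DP r E Z a a' K1 K2 P N) (hT : r T + (K2 \ T).card ≤ r (T ∪ K2)) (hS : S ⊆ K2 \ T)
    (ha : r (insert a (T ∪ S)) = r (T ∪ S)) : S = K2 \ T := by
  have hr := h.rk
  refine Subset.antisymm hS fun e he => ?_
  by_contra heS
  have he' := mem_sdiff.1 he
  have h1 : r (insert e (insert a (K2.erase e))) = r (insert a (K2.erase e)) := by
    rw [insert_comm, insert_erase he'.1, h.q2, h.m2 _ (erase_subset e K2) (fun h0 => notMem_erase e K2 (by rw [h0]; exact he'.1)),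
      card_erase_of_mem he'.1]
    have := card_pos.2 ⟨e, he'.1⟩
    omega
  have h2 : r (insert a (T ∪ K2.erase e)) = r (T ∪ K2.erase e) := by
    refine hr.mono_insert ha (union_subset_union (Subset.refl T) fun z hz => ?_)
    exact mem_erase.2 ⟨fun e' => heS (e' ▸ hz), (mem_sdiff.1 (hS hz)).1⟩
  have h3 : r (insert e (insert a (T ∪ K2.erase e))) = r (insert a (T ∪ K2.erase e)) :=
    hr.mono_insert h1 (insert_subset_insert a subset_union_right)
  have h4 : T ∪ K2 ⊆ insert e (insert a (T ∪ K2.erase e)) := by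
    intro z hz
    rw [mem_insert, mem_insert, mem_union, mem_erase]
    rcases mem_union.1 hz with hz | hz
    · exact Or.inr (Or.inr (Or.inl hz))
    · by_cases hze : z = e
      · exact Or.inl hze
      · exact Or.inr (Or.inr (Or.inr ⟨hze, hz⟩))
  have h5 := hr.mono _ _ h4
  have h6 := rk_le_union_card hr T ((K2.erase e) \ T)
  have h7 : T ∪ K2.erase e \ T = T ∪ K2.erase e := union_sdiff_self_eq_union
  rw [h7] at h6
  have h8 : (K2.erase e \ T).card + 1 = (K2 \ T).card := by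
    have : K2.erase e \ T = (K2 \ T).erase e := by
      ext z
      simp only [mem_sdiff, mem_erase]
      tauto
    rw [this, card_erase_of_mem he]
    have := card_pos.2 ⟨e, he⟩
    omega
  omega

end Pool.Agent.R6
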