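import Pool.Agent.EX54.Nap
import Pool.Agent.SA65.D
import Pool.Agent.R6.B

/-!
Rank six (note 3130 of MP_e6151a_ag): the red and the blue tokens of a set `Z` with good bases of both colours (as in `SA65.k1Zna`, with
the two sets made explicit) and the ranks of their spans in rank six.
-/

set_option autoImplicit false

namespace Pool.Agent.R6

open Finset Pool.Agent.DT3 Pool.Agent.CF98 Pool.Agent.WT59 Pool.Agent.WG59 Pool.Agent.EX59 Pool.Agent.SA65

variable {α : Type*} [DecidableEq α] {r : Finset α → ℕ} {E F X Y Z A B J b b' : Finset α} {x y : α} {f : ℕ}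
  {Q : Finset α → Prop}

open Classical in
/-- The tokens: the elements of `Z` whose deletion gives a good basis in `Q`. -/
noncomputable def TK (r : Finset α → ℕ) (E : Finset α) (f : ℕ) (Q : Finset α → Prop) (Z : Finset α) : Finset α :=
  Z.filter fun x => Gd r E f (Z.erase x) ∧ Q (Z.erase x)

theorem mem_TK : x ∈ TK r E f Q Z ↔ x ∈ Z ∧ Gd r E f (Z.erase x) ∧ Q (Z.erase x) := by
  classical
  unfold TK
  rw [mem_filter]

/-- A set `Z` of `f + 1` elements with good bases of both colours gives completely non-adjacent sets. -/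
theorem napZ (hE : Env r E f) (hQ : ∀ A A', Stp r E f A A' → Q A → Q A') (hZ : Z ⊆ E)
    (hZc : Z.card = f + 1) (hb : Gd r E f b) (hbZ : b ⊆ Z) (hb' : Gd r E f b') (hbZ' : b' ⊆ Z) (hq : Q b)
    (hq' : ¬ Q b') : NAP r E (FF r r E Z) E ((E \ Z) \ FF r r E Z) (TK r E f Q Z) (TK r E f (fun A => ¬ Q A) Z) := by
  classical
  have hr := hE.rk
  have hok : Ok r r E Z := ok_sub (gd_ok hE hb) hbZ
  set F : Finset α := FF r r E Z with hFd
  have hFE : F ⊆ E := FF_sub
  have hFt : Ti r r Z F := FF_ti hr hr hok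
  have hrE : ∀ X ⊆ E, r X ≤ f := fun X hX => by
    have := hr.mono X E hX
    rwa [hE.rank] at this
  have hmiss : ∀ T, Gd r E f T → T ⊆ Z → ∃ x ∈ Z, T = Z.erase x := by
    intro T hT hTZ
    have h1 := card_sdiff_add_card_eq_card hTZ
    have h2 := hT.2.1.1
    have h3 : (Z \ T).card = 1 := by omega
    obtain ⟨x, hx⟩ := card_eq_one.1 h3
    have hx' : x ∈ Z \ T := by rw [hx]; exact mem_singleton_self x
    have hx'' := mem_sdiff.1 hx'
    refine ⟨x, hx''.1, ?_⟩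
    ext z
    rw [mem_erase]
    constructor
    · intro hz
      exact ⟨fun e => hx''.2 (e ▸ hz), hTZ hz⟩
    · rintro ⟨hz, hz'⟩
      by_contra hn
      have h4 : z ∈ Z \ T := mem_sdiff.2 ⟨hz', hn⟩
      rw [hx, mem_singleton] at h4
      exact hz h4
  set A : Finset α := TK r E f Q Z with hAd
  set B : Finset α := TK r E f (fun A => ¬ Q A) Z with hBd
  have hA : ∀ x ∈ A, x ∈ Z ∧ Gd r E f (Z.erase x) ∧ Q (Z.erase x) := fun x hx => mem_TK.1 hx
  have hB : ∀ x ∈ B, x ∈ Z ∧ Gd r E f (Z.erase x) ∧ ¬ Q (Z.erase x) := fun x hx => mem_TK.1 hx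
  obtain ⟨p, hpZ, hpb⟩ := hmiss b hb hbZ
  obtain ⟨p', hpZ', hpb'⟩ := hmiss b' hb' hbZ'
  have hpA : p ∈ A := mem_TK.2 ⟨hpZ, hpb ▸ hb, hpb ▸ hq⟩
  have hpB : p' ∈ B := mem_TK.2 ⟨hpZ', hpb' ▸ hb', hpb' ▸ hq'⟩
  have htF : ∀ x ∈ Z, Gd r E f (Z.erase x) → x ∉ F := by
    intro x hx hg
    exact ti_disj (gd_ok hE hg) (erase_subset _ _) hFE hFt x hx (notMem_erase x Z)
  -- outside `F` the complement of `Z` is strictly sparse
  have hsp2 : ∀ X ⊆ (E \ Z) \ F, X.Nonempty → X.card + 1 + r F + r F ≤ r (X ∪ F) + r (X ∪ F) := by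
    intro X hX hXn
    have h0 : X ∪ F ⊆ E := union_subset (fun z hz => (mem_sdiff.1 (mem_sdiff.1 (hX hz)).1).1) hFE
    have h1 := hok (X ∪ F) h0
    have e1 : (X ∪ F) \ Z = X ∪ (F \ Z) := by
      ext z
      simp only [mem_sdiff, mem_union]
      constructor
      · rintro ⟨h | h, h2⟩
        · exact Or.inl h
        · exact Or.inr ⟨h, h2⟩
      · rintro (h | h)
        · exact ⟨Or.inl h, (mem_sdiff.1 (mem_sdiff.1 (hX h)).1).2⟩
        · exact ⟨Or.inr h.1, h.2⟩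
    have d1 : Disjoint X (F \ Z) := by
      rw [disjoint_left]
      intro z hz hz'
      exact (mem_sdiff.1 (hX hz)).2 (mem_sdiff.1 hz').1
    have h2 : ((X ∪ F) \ Z).card = X.card + (F \ Z).card := by rw [e1, card_union_of_disjoint d1]
    unfold Ti at hFt
    by_contra hlt
    have h3 : X ∪ F ⊆ F := FF_max h0 (by unfold Ti; omega)
    obtain ⟨z, hz⟩ := hXn
    exact (mem_sdiff.1 (hX hz)).2 (h3 (mem_union_left _ hz))
  -- `x ∉ F` for elements of `E` means `x` outside the closure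
  have hFfl : ∀ x ∈ Z, x ∉ F → r (insert x F) ≠ r F := by
    intro x hx hxF h0
    have h1 : insert x F ⊆ F := FF_max (insert_subset (hZ hx) hFE) (by
      unfold Ti at hFt ⊢
      rw [insert_sdiff_of_mem F hx, h0]
      exact hFt)
    exact hxF (h1 (mem_insert_self x F))
  have hAl : ∀ x ∈ A, r (insert x F) ≠ r F := fun x hx => hFfl x (hA x hx).1 (htF x (hA x hx).1 (hA x hx).2.1)
  have hBl : ∀ x ∈ B, r (insert x F) ≠ r F := fun x hx => hFfl x (hB x hx).1 (htF x (hB x hx).1 (hB x hx).2.1)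
  -- no common `J`
  have hno : ∀ J ⊆ (E \ Z) \ F, J.card + 1 + r F = f → r (((E \ Z) \ F) \ J ∪ F) = f →
      ∀ x ∈ A, ∀ y ∈ B, r (insert x J ∪ F) = f → r (insert y J ∪ F) = f → False := by
    intro J hJ hJc hJ3 x hx y hy hxJ hyJ
    have h1 := stp_of_J hE hZ hZc hok hFE hFt hJ hJc hJ3 (hA x hx).1 (hA x hx).2.1.2.1.2 hxJ (hB y hy).1
      (hB y hy).2.1.2.1.2 hyJ
    exact (hB y hy).2.2 (hQ _ _ h1 (hA x hx).2.2)
  -- T*: skewness
  have hpp : p ≠ p' := by
    intro e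
    exact (hB p' hpB).2.2 (e ▸ (hA p hpA).2.2)
  -- every element of a colour class is in the closure of the rest
  have htok : ∀ x ∈ Z, Gd r E f (Z.erase x) → ∀ K : Finset α,
      (∀ y, y ∈ K ↔ (y ∈ Z ∧ y ≠ x ∧ Gd r E f (Z.erase y) ∧ (Q (Z.erase x) ↔ Q (Z.erase y)))) →
      r (insert x (F ∪ K)) = r (F ∪ K) := by
    intro x hx hg K hK
    have hxE : x ∈ E \ Z.erase x := mem_sdiff.2 ⟨hZ hx, notMem_erase x Z⟩
    have h1 := DP91.tg_ff hE hg hxE
    rw [insert_erase hx] at h1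
    refine tst hE hQ hg hxE h1 ?_
    intro y
    rw [hK y]
    have e1 : y ≠ x → insert x ((Z.erase x).erase y) = Z.erase y := by
      intro hne
      rw [erase_right_comm, insert_erase (mem_erase.2 ⟨hne.symm, hx⟩)]
    constructor
    · rintro ⟨h2, h3, h4, h5⟩
      rw [e1 h3]
      exact ⟨mem_erase.2 ⟨h3, h2⟩, htF y h2 h4, h4.2.1.2, h5⟩
    · rintro ⟨h2, h3, h4, h5⟩
      have h6 := mem_erase.1 h2
      rw [e1 h6.1] at h4 h5
      exact ⟨h6.2, h6.1, gd_er hZ hZc hok h6.2 h4 h3, h5⟩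
  have hAc : ∀ x ∈ A, r (insert x (F ∪ A.erase x)) = r (F ∪ A.erase x) := by
    intro x hx
    refine htok x (hA x hx).1 (hA x hx).2.1 _ ?_
    intro y
    have h1 := (hA x hx).2.2
    rw [mem_erase, hAd, mem_TK]
    tauto
  have hBc : ∀ x ∈ B, r (insert x (F ∪ B.erase x)) = r (F ∪ B.erase x) := by
    intro x hx
    refine htok x (hB x hx).1 (hB x hx).2.1 _ ?_
    intro y
    have h1 := (hB x hx).2.2
    rw [mem_erase, hBd, mem_TK]
    tauto
  -- pairs of tokens of one colour are independent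
  have hpair : ∀ x y z : α, x ∈ Z → y ∈ Z → z ∈ Z → r (Z.erase z) = f → x ≠ y → x ≠ z → y ≠ z → r {x, y} = 2 := by
    intro x y z hx hy hz hzr hxy hxz hyz
    have h1 : r (Z.erase z) = (Z.erase z).card := by
      rw [card_erase_of_mem hz]; omega
    have h2 := ind_sub hr h1 (insert_subset (mem_erase.2 ⟨hxz, hx⟩) (singleton_subset_iff.2 (mem_erase.2 ⟨hyz, hy⟩)))
    rw [h2, card_pair hxy]
  have hAB : ∀ x ∈ A, x ∉ B := fun x hx hx' => (hB x hx').2.2 (hA x hx).2.2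
  have hAE : A ⊆ E := fun x hx => hZ (hA x hx).1
  have hBE : B ⊆ E := fun x hx => hZ (hB x hx).1
  have hfE := hE.rank
  have n1 := card_sdiff_add_card_eq_card hZ
  have n2 : ((E \ Z) \ F).card + ((E \ Z) ∩ F).card = (E \ Z).card := card_sdiff_add_card_inter _ _
  have e2 : (E \ Z) ∩ F = F \ Z := by
    ext z
    simp only [mem_inter, mem_sdiff]
    constructor
    · rintro ⟨⟨h1, h2⟩, h3⟩; exact ⟨h3, h2⟩
    · rintro ⟨h1, h2⟩; exact ⟨⟨hFE h1, h2⟩, h1⟩
  rw [e2] at n2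
  have n4 := hE.card
  have hFt' := hFt
  unfold Ti at hFt'
  have hYE : (E \ Z) \ F ⊆ E := sdiff_subset.trans sdiff_subset
  have hdZ : ∀ K ⊆ Z, Disjoint K ((E \ Z) \ F) := by
    intro K hK
    rw [disjoint_left]
    intro z hz hz'
    exact (mem_sdiff.1 (mem_sdiff.1 hz').1).2 (hK hz)
  have hlAB : ∀ x ∈ A ∪ B, r (insert x F) ≠ r F := by
    intro x hx
    rcases mem_union.1 hx with hx | hx
    · exact hAl x hx
    · exact hBl x hx
  have her : ∀ K : Finset α, (∀ x ∈ K, r (insert x (F ∪ K.erase x)) = r (F ∪ K.erase x)) →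
      ∀ x ∈ K, r (F ∪ K.erase x) = r (F ∪ K) := by
    intro K hK x hx
    rw [← hK x hx, ← union_insert, insert_erase hx]
  have hnr : ∀ (x : α) (J : Finset α), insert x (J ∪ F) = insert x J ∪ F := fun x J => (insert_union x J F).symm
  rcases EX84.adjF (S := (E \ Z) \ F) (F := F) (K1 := A) (K2 := B) (g := f) hr disjoint_sdiff_self_left
    (hdZ A fun x hx => (hA x hx).1) (hdZ B fun x hx => (hB x hx).1) ⟨p, hpA⟩ ⟨p', hpB⟩ hlAB (by omega)
    (fun X hX hXn => by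
      have h1 := hsp2 X hX hXn
      omega)
    (fun X hX => hrE X (hX.trans (union_subset (union_subset hYE hFE) (union_subset hAE hBE)))) with
    ⟨J, hJ, j1, j2, j3, ⟨x, hx, j4⟩, ⟨y, hy, j5⟩⟩ | ⟨h1, h2⟩
  · exact absurd (hno J hJ j1 j3 x hx y hy (by rw [insert_union]; exact j4) (by rw [insert_union]; exact j5)) id
  · refine ⟨Subset.refl E, hFE, hYE, disjoint_sdiff_self_left, hAE, hBE, hdZ A fun x hx => (hA x hx).1,
      hdZ B fun x hx => (hB x hx).1, ⟨p, hpA⟩, ⟨p', hpB⟩, hlAB, ?_, ?_, her A hAc, her B hBc, by omega, ?_, ?_, h1,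
      by rw [hfE]; exact h2⟩
    · intro x hx y hy hxy
      refine hpair x y p' (hA x hx).1 (hA y hy).1 hpZ' (hB p' hpB).2.1.2.1.2 hxy ?_ ?_
      · intro e; exact hAB x hx (e ▸ hpB)
      · intro e; exact hAB y hy (e ▸ hpB)
    · intro x hx y hy hxy
      refine hpair x y p (hB x hx).1 (hB y hy).1 hpZ (hA p hpA).2.1.2.1.2 hxy ?_ ?_
      · intro e; exact hAB p hpA (e ▸ hx)
      · intro e; exact hAB p hpA (e ▸ hy)
    · intro X hX hXn
      have h3 := hsp2 X hX hXn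
      omega
    · intro J hJ hJc hJ3
      rw [hfE] at hJc hJ3 ⊢
      by_contra hcon
      rw [not_or] at hcon
      obtain ⟨h3, h4⟩ := hcon
      push Not at h3 h4
      obtain ⟨x, hx, h5⟩ := h3
      obtain ⟨y, hy, h6⟩ := h4
      rw [hnr] at h5 h6
      exact hno J hJ hJc hJ3 x hx y hy h5 h6

/-- The facts about a set `Z` of seven elements with good bases of both colours in rank six. -/
structure Z6 (r : Finset α → ℕ) (E : Finset α) (Q : Finset α → Prop) (Z : Finset α) : Prop where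
  sub : Z ⊆ E
  card : Z.card = 7
  rF : r (FF r r E Z) = 2
  cF : (FF r r E Z \ Z).card = 4
  fl : ∀ z ∈ E, r (insert z (FF r r E Z)) = r (FF r r E Z) → z ∈ FF r r E Z
  na : NAP r E (FF r r E Z) E ((E \ Z) \ FF r r E Z) (TK r E 6 Q Z) (TK r E 6 (fun A => ¬ Q A) Z)
  a2 : 2 ≤ (TK r E 6 Q Z).card
  b2 : 2 ≤ (TK r E 6 (fun A => ¬ Q A) Z).card
  ra : r (FF r r E Z ∪ TK r E 6 Q Z) = 3
  rb : r (FF r r E Z ∪ TK r E 6 (fun A => ¬ Q A) Z) = 3

theorem two_tok {F K : Finset α} (hn : K.Nonempty) (hl : ∀ x ∈ K, r (insert x F) ≠ r F)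
    (hc : ∀ x ∈ K, r (F ∪ K.erase x) = r (F ∪ K)) : 2 ≤ K.card := by
  by_contra hlt
  have h1 : 0 < K.card := hn.card_pos
  obtain ⟨x, hx⟩ := card_eq_one.1 (show K.card = 1 by omega)
  have h2 := hc x (by rw [hx]; exact mem_singleton_self x)
  rw [hx, erase_singleton, union_empty, union_comm, ← insert_eq] at h2
  exact hl x (by rw [hx]; exact mem_singleton_self x) h2.symm

theorem tok_lt (hr : RankFn r) {F K : Finset α} (hn : K.Nonempty) (hl : ∀ x ∈ K, r (insert x F) ≠ r F) :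
    r F + 1 ≤ r (F ∪ K) := by
  obtain ⟨x, hx⟩ := hn
  have h1 := rk_ins_ne hr (hl x hx)
  have h2 := hr.mono (insert x F) (F ∪ K) (insert_subset (mem_union_right _ hx) subset_union_left)
  omega

theorem z6 (hE : Env r E 6) (hQ : ∀ A A', Stp r E 6 A A' → Q A → Q A') (hZ : Z ⊆ E)
    (hZc : Z.card = 7) (hb : Gd r E 6 b) (hbZ : b ⊆ Z) (hb' : Gd r E 6 b') (hbZ' : b' ⊆ Z) (hq : Q b)
    (hq' : ¬ Q b') (hI : 2 ≤ r (FF r r E Z)) : Z6 r E Q Z := by
  have hr := hE.rk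
  have hok : Ok r r E Z := ok_sub (gd_ok hE hb) hbZ
  have hN := napZ hE hQ hZ (by rw [hZc]) hb hbZ hb' hbZ' hq hq'
  have hFE : FF r r E Z ⊆ E := FF_sub
  have hFt : Ti r r Z (FF r r E Z) := FF_ti hr hr hok
  unfold Ti at hFt
  have h1 := EX54.nap_corank hr hN
  rw [hE.rank] at h1
  have l1 : ∀ x ∈ TK r E 6 Q Z, r (insert x (FF r r E Z)) ≠ r (FF r r E Z) :=
    fun x hx => hN.nl x (mem_union_left _ hx)
  have l2 : ∀ x ∈ TK r E 6 (fun A => ¬ Q A) Z, r (insert x (FF r r E Z)) ≠ r (FF r r E Z) :=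
    fun x hx => hN.nl x (mem_union_right _ hx)
  have h2 := tok_lt hr hN.n1 l1
  have h3 := tok_lt hr hN.n2 l2
  have h4 := hN.sk
  refine ⟨hZ, hZc, by omega, by omega, ?_, hN, two_tok hN.n1 l1 hN.c1, two_tok hN.n2 l2 hN.c2, by omega, by omega⟩
  intro z hz hzr
  refine (FF_max (insert_subset hz hFE) ?_) (mem_insert_self z _)
  unfold Ti
  have h5 := hok _ (insert_subset hz hFE)
  have h6 : (FF r r E Z \ Z).card ≤ (insert z (FF r r E Z) \ Z).card :=
    card_le_card (sdiff_subset_sdiff (subset_insert _ _) (Subset.refl Z))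
  omega

end Pool.Agent.R6
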